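import Pool.Agent.Helper119.KralG

open MeasureTheory Metric Set Filter Topology
open scoped ENNReal
open Pool.Agent.Helper119.Kral

namespace Pool.Agent.Y257.KR

lemma isOpen_noncritical {G : Set ℂ} (hG : IsOpen G) {f : ℂ → ℝ} (hf : ContDiffOn ℝ 1 f G) :
    IsOpen {z ∈ G | fderiv ℝ f z ≠ 0} := by
  have hc : ContinuousOn (fderiv ℝ f) G := hf.continuousOn_fderiv_of_isOpen hG le_rfl
  exact hc.isOpen_inter_preimage hG isOpen_compl_singleton

/-- Critical points are free: a `C^1` function which near each of its noncritical points of `G`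
satisfies the sub-mean value inequality on small discs centred at that point is subharmonic. -/
theorem subharmonic_of_noncritical {G : Set ℂ} (hG : IsOpen G) {f : ℂ → ℝ}
    (hf : ContDiffOn ℝ 1 f G)
    (hS : ∀ z ∈ G, fderiv ℝ f z ≠ 0 → ∃ e > 0, ∀ r, 0 < r → r < e →
      f z ≤ Real.circleAverage f z r) :
    Subharmonic G f := by
  refine ⟨hf.continuousOn.upperSemicontinuousOn, ?_⟩
  intro c r hr hcr
  by_contra hlt
  push Not at hlt
  obtain ⟨z1, hz1, ρ, hρ, κ, hκ, φ, hρG, hSM, hne, hmax⟩ := exists_touching hG hf hr hcr hlt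
  obtain ⟨e, he, hS1⟩ := hS z1 hz1 hne
  set s : ℝ := min (e / 2) ρ with hs
  have hs0 : 0 < s := lt_min (half_pos he) hρ
  have hse : s < e := lt_of_le_of_lt (min_le_left _ _) (by linarith)
  have hsρ : s ≤ ρ := min_le_right _ _
  have h1 := hS1 s hs0 hse
  have hfc : ContinuousOn f (sphere z1 s) := hf.continuousOn.mono
    ((sphere_subset_closedBall.trans (closedBall_subset_closedBall hsρ)).trans hρG)
  have h2 : Real.circleAverage f z1 s ≤
      Real.circleAverage (fun z => φ z + (f z1 - φ z1)) z1 s := by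
    apply Real.circleAverage_mono
    · exact ContinuousOn.circleIntegrable hs0.le hfc
    · exact circInt_of_cont (hSM.1.add continuous_const) _ _
    · intro x hx
      rw [abs_of_pos hs0] at hx
      have := hmax x (closedBall_subset_closedBall hsρ (sphere_subset_closedBall hx))
      linarith
  have h3 : Real.circleAverage (fun z => φ z + (f z1 - φ z1)) z1 s =
      φ z1 - κ * s ^ 2 + (f z1 - φ z1) := by
    rw [Real.circleAverage_fun_add (circInt_of_cont hSM.1 _ _)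
      (circInt_of_cont continuous_const _ _), Real.circleAverage_const, hSM.2]
  have h4 : 0 < κ * s ^ 2 := by positivity
  linarith

/-- Local sub-mean value inequality on small discs from subharmonicity on an open set. -/
lemma Subharmonic.local {U : Set ℂ} (hU : IsOpen U) {f : ℂ → ℝ} (hS : Subharmonic U f)
    {z : ℂ} (hz : z ∈ U) : ∃ e > 0, ∀ r, 0 < r → r < e → f z ≤ Real.circleAverage f z r := by
  obtain ⟨e, he, hsub⟩ := Metric.isOpen_iff.1 hU z hz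
  exact ⟨e, he, fun r hr hre => hS.2 z r hr ((closedBall_subset_ball hre).trans hsub)⟩

lemma Subharmonic.restrict {U V : Set ℂ} {f : ℂ → ℝ} (hS : Subharmonic U f) (h : V ⊆ U) :
    Subharmonic V f :=
  ⟨hS.1.mono h, fun c r hr hsub => hS.2 c r hr (hsub.trans h)⟩

lemma COmega.restrict {ω : ℝ → ℝ} {U V : Set ℂ} {g : ℂ → ℝ} (h : COmega ω U g) (hVU : V ⊆ U) :
    COmega ω V g := fun K hK hKc => h K (hK.trans hVU) hKc

lemma COmegaStar.restrict {ω : ℝ → ℝ} {U V : Set ℂ} {g : ℂ → ℝ} (h : COmegaStar ω U g)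
    (hVU : V ⊆ U) : COmegaStar ω V g := fun K hK hKc => h K (hK.trans hVU) hKc

lemma C1Omega.restrict {ω : ℝ → ℝ} {U V : Set ℂ} {f : ℂ → ℝ} (h : C1Omega ω U f) (hVU : V ⊆ U) :
    C1Omega ω V f :=
  ⟨h.1.mono hVU, COmega.restrict h.2.1 hVU, COmega.restrict h.2.2 hVU⟩

lemma C1OmegaStar.restrict {ω : ℝ → ℝ} {U V : Set ℂ} {f : ℂ → ℝ} (h : C1OmegaStar ω U f)
    (hVU : V ⊆ U) : C1OmegaStar ω V f :=
  ⟨h.1.mono hVU, COmegaStar.restrict h.2.1 hVU, COmegaStar.restrict h.2.2 hVU⟩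

/-- An open set minus an open set is a countable union of compact sets. -/
lemma exists_compact_cover {U V : Set ℂ} (hU : IsOpen U) (hV : IsOpen V) :
    ∃ F : ℕ → Set ℂ, (∀ n, IsCompact (F n)) ∧ (∀ n, F n ⊆ U \ V) ∧ U \ V ⊆ ⋃ n, F n := by
  obtain ⟨A, hA1, hA2, hA3, hA4⟩ := hU.exists_iUnion_isClosed
  refine ⟨fun n => (A n \ V) ∩ closedBall 0 n, fun n => ?_, fun n => ?_, ?_⟩
  · exact ((isCompact_closedBall (0 : ℂ) n).inter_left ((hA1 n).sdiff hV))
  · exact fun z hz => ⟨hA2 n hz.1.1, hz.1.2⟩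
  · intro z hz
    have hz1 : z ∈ ⋃ n, A n := hA3 ▸ hz.1
    obtain ⟨n, hn⟩ := mem_iUnion.1 hz1
    obtain ⟨m, hm⟩ := exists_nat_ge ‖z‖
    refine mem_iUnion.2 ⟨max n m, ⟨hA4 (le_max_left n m) hn, hz.2⟩, ?_⟩
    rw [mem_closedBall_zero_iff]
    exact hm.trans (by exact_mod_cast le_max_right n m)

/-- The general statement in the class `C^{1,ω}`. -/
theorem main_null {ω : ℝ → ℝ} (hωc : ContinuousOn ω (Ici 0))
    (hωm : MonotoneOn ω (Ici 0)) (hω0 : 0 ≤ ω 0) {E : Set ℝ}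
    (hE : ∀ K : Set ℝ, IsCompact K → K ⊆ E → gaugeMeasure ω K = 0)
    {G : Set ℂ} (hG : IsOpen G) {f : ℂ → ℝ} (hf : ContDiffOn ℝ 1 f G)
    {U : Set ℂ} (hU : IsOpen U) (hUG : U ⊆ G) (hfU : C1Omega ω U f)
    {G' : Set ℂ} (hG' : IsOpen G') (hS : Subharmonic G' f)
    (hmem : ∀ z ∈ G \ G', fderiv ℝ f z ≠ 0 → z ∈ U ∧ f z ∈ E) :
    Subharmonic G f := by
  set W : Set ℂ := {z ∈ U | fderiv ℝ f z ≠ 0} with hW
  have hWo : IsOpen W := isOpen_noncritical hU (hf.mono hUG)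
  have hWU : W ⊆ U := fun z hz => hz.1
  obtain ⟨F, hF1, hF2, hF3⟩ := exists_compact_cover hWo hG'
  have hfF : ∀ n, gaugeMeasure ω (f '' F n) = 0 := by
    intro n
    apply hE
    · exact (hF1 n).image_of_continuousOn (hf.continuousOn.mono
        (fun z hz => hUG (hF2 n hz).1.1))
    · rintro _ ⟨z, hz, rfl⟩
      exact (hmem z ⟨hUG (hF2 n hz).1.1, (hF2 n hz).2⟩ (hF2 n hz).1.2).2
  have hnull : gaugeMeasure ω (⋃ n, f '' F n) = 0 := measure_iUnion_null hfF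
  have hSW : Subharmonic W f := by
    refine negligible_of_null hωc hωm hω0 hnull W hWo f (C1Omega.restrict hfU hWU) (G' ∩ W)
      (hG'.inter hWo) inter_subset_right (Subharmonic.restrict hS inter_subset_left) ?_
    intro z hz
    have hz' : z ∈ W \ G' := ⟨hz.1, fun h => hz.2 ⟨h, hz.1⟩⟩
    obtain ⟨n, hn⟩ := mem_iUnion.1 (hF3 hz')
    exact mem_iUnion.2 ⟨n, z, hn, rfl⟩
  apply subharmonic_of_noncritical hG hf
  intro z hz hne
  by_cases hzG' : z ∈ G'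
  · exact Subharmonic.local hG' hS hzG'
  · exact Subharmonic.local hWo hSW ⟨(hmem z ⟨hz, hzG'⟩ hne).1, hne⟩

/-- The general statement in the class `C^{1,ω}_*`. -/
theorem main_sigmaFinite {ω : ℝ → ℝ} (hωc : ContinuousOn ω (Ici 0))
    (hωm : MonotoneOn ω (Ici 0)) (hω0 : 0 ≤ ω 0) {E : Set ℝ}
    (hE : ∀ K : Set ℝ, IsCompact K → K ⊆ E →
      ∃ A : ℕ → Set ℝ, K ⊆ ⋃ n, A n ∧ ∀ n, gaugeMeasure ω (A n) < ⊤)
    {G : Set ℂ} (hG : IsOpen G) {f : ℂ → ℝ} (hf : ContDiffOn ℝ 1 f G)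
    {U : Set ℂ} (hU : IsOpen U) (hUG : U ⊆ G) (hfU : C1OmegaStar ω U f)
    {G' : Set ℂ} (hG' : IsOpen G') (hS : Subharmonic G' f)
    (hmem : ∀ z ∈ G \ G', fderiv ℝ f z ≠ 0 → z ∈ U ∧ f z ∈ E) :
    Subharmonic G f := by
  set W : Set ℂ := {z ∈ U | fderiv ℝ f z ≠ 0} with hW
  have hWo : IsOpen W := isOpen_noncritical hU (hf.mono hUG)
  have hWU : W ⊆ U := fun z hz => hz.1
  obtain ⟨F, hF1, hF2, hF3⟩ := exists_compact_cover hWo hG'
  have hfF : ∀ n, ∃ A : ℕ → Set ℝ, f '' F n ⊆ ⋃ m, A m ∧ ∀ m, gaugeMeasure ω (A m) < ⊤ := by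
    intro n
    apply hE
    · exact (hF1 n).image_of_continuousOn (hf.continuousOn.mono
        (fun z hz => hUG (hF2 n hz).1.1))
    · rintro _ ⟨z, hz, rfl⟩
      exact (hmem z ⟨hUG (hF2 n hz).1.1, (hF2 n hz).2⟩ (hF2 n hz).1.2).2
  choose A hA1 hA2 using hfF
  have hsf : ∃ B : ℕ → Set ℝ, (⋃ n, f '' F n) ⊆ ⋃ m, B m ∧ ∀ m, gaugeMeasure ω (B m) < ⊤ := by
    refine ⟨fun k => A (Nat.unpair k).1 (Nat.unpair k).2, ?_, fun k => hA2 _ _⟩
    intro x hx
    obtain ⟨n, hn⟩ := mem_iUnion.1 hx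
    obtain ⟨m, hm⟩ := mem_iUnion.1 (hA1 n hn)
    refine mem_iUnion.2 ⟨Nat.pair n m, ?_⟩
    simpa using hm
  have hSW : Subharmonic W f := by
    refine negligible_of_sigmaFinite hωc hωm hω0 hsf W hWo f (C1OmegaStar.restrict hfU hWU)
      (G' ∩ W) (hG'.inter hWo) inter_subset_right (Subharmonic.restrict hS inter_subset_left) ?_
    intro z hz
    have hz' : z ∈ W \ G' := ⟨hz.1, fun h => hz.2 ⟨h, hz.1⟩⟩
    obtain ⟨n, hn⟩ := mem_iUnion.1 (hF3 hz')
    exact mem_iUnion.2 ⟨n, z, hn, rfl⟩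
  apply subharmonic_of_noncritical hG hf
  intro z hz hne
  by_cases hzG' : z ∈ G'
  · exact Subharmonic.local hG' hS hzG'
  · exact Subharmonic.local hWo hSW ⟨(hmem z ⟨hz, hzG'⟩ hne).1, hne⟩

end Pool.Agent.Y257.KR
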