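import Pool.Agent.Y257.KR.General

open MeasureTheory Metric Set Filter Topology
open scoped ENNReal
open Pool.Agent.Helper119.Kral

namespace Pool.Agent.Y257.KR

/-- The general theorem: `f` continuous on `G`, differentiable at the points of `G \ G'` only;
countably many gauges, pointwise Taylor conditions. -/
theorem general_pointwise {G : Set ℂ} {f : ℂ → ℝ} (hfc : ContinuousOn f G)
    {G' : Set ℂ} (hG' : IsOpen G') (hdiff : ∀ z ∈ G \ G', DifferentiableAt ℝ f z)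
    (hS : Subharmonic G' f)
    {S : ℕ → Set ℂ} {ω : ℕ → ℝ → ℝ} (hω : ∀ j, Gauge (ω j))
    (hcover : ∀ z ∈ G \ G', fderiv ℝ f z ≠ 0 → z ∈ ⋃ j, S j)
    (hgood : ∀ j,
      ((∀ z ∈ S j, TaylorO (ω j) f z) ∧ gaugeMeasure (ω j) (f '' S j) = 0) ∨
      (UnifTaylorLittleO G (ω j) f (S j) ∧ SigmaFiniteOn (ω j) (f '' S j))) :
    Subharmonic G f := by
  refine ⟨hfc.upperSemicontinuousOn, ?_⟩
  apply submean_general hG' hfc hdiff hS.2
  intro c r hr hcr
  have hB : (closedBall c r).Nonempty := ⟨c, mem_closedBall_self hr.le⟩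
  have h1 : ∀ j, ∀ N : ℕ, CovR f (closedBall c r)
      (S j ∩ {z | 4 ≤ ‖grad f z‖ * ((N + 1 : ℕ) : ℝ)}) := by
    intro j N
    obtain ⟨hωc, hωm, hω0⟩ := hω j
    apply CovR_of_Cov (N := N + 1) (Nat.succ_pos N)
    · rcases hgood j with ⟨hO, hnull⟩ | ⟨ho, hsf⟩
      · apply Cov_null hωc hωm hω0 (Nat.succ_pos N) hB _
          (measure_mono_null (image_mono inter_subset_left) hnull)
        intro z hz
        obtain ⟨C, b, hb, h⟩ := hO z hz.1.1
        exact ⟨C, b, hb, fun u _ huz => h u huz⟩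
      · obtain ⟨A, hA1, hA2⟩ := hsf
        apply Cov_sigma hωc hωm hω0 (Nat.succ_pos N) hB _
          ⟨A, (image_mono inter_subset_left).trans hA1, hA2⟩
        intro ε hε
        obtain ⟨b, hb, h⟩ := ho ε hε
        exact ⟨b, hb, fun z hz u hu huz => h z hz.1.1 u (hcr hu) huz⟩
    · exact fun z hz => hz.1.2
  refine (CovR.iUnion (fun j => CovR.iUnion (h1 j))).mono ?_
  rintro z ⟨hz, hne⟩
  obtain ⟨j, hj⟩ := mem_iUnion.1 (hcover z hz hne)
  have hg : 0 < ‖grad f z‖ := norm_pos_iff.2 (grad_ne_zero hne)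
  obtain ⟨N, hN⟩ := exists_nat_ge (4 / ‖grad f z‖)
  refine mem_iUnion.2 ⟨j, mem_iUnion.2 ⟨N, hj, ?_⟩⟩
  show 4 ≤ ‖grad f z‖ * ((N + 1 : ℕ) : ℝ)
  rw [div_le_iff₀ hg] at hN
  push_cast
  nlinarith

end Pool.Agent.Y257.KR
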