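import Pool.Agent.Y257.KR.Main

open MeasureTheory Metric Set Filter Topology
open scoped ENNReal
open Pool.Agent.Helper119.Kral

namespace Pool.Agent.Y257.KR

/-- The complex number representing the gradient. -/
noncomputable def grad (f : ℂ → ℝ) (z : ℂ) : ℂ :=
  ((fderiv ℝ f z 1 : ℝ) : ℂ) - Complex.I * ((fderiv ℝ f z Complex.I : ℝ) : ℂ)

lemma fderiv_apply_eq_grad (f : ℂ → ℝ) (z v : ℂ) : fderiv ℝ f z v = (grad f z * v).re :=
  clm_eq_re (fderiv ℝ f z) v

lemma grad_ne_zero {f : ℂ → ℝ} {z : ℂ} (h : fderiv ℝ f z ≠ 0) : grad f z ≠ 0 := by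
  intro h0
  apply h
  ext1 v
  rw [fderiv_apply_eq_grad, h0]
  simp

/-- Lipschitz version of `Finf_cont`. -/
lemma Finf_lip {ι : Type} {M e : ι → ℝ} {C : ℝ} (hM0 : ∀ j, 0 ≤ M j) (hM : Summable M)
    (he : ∀ j, |e j| ≤ C) (s t : ℝ) :
    |Finf M e s - Finf M e t| ≤ (1 + ∑' j, M j) * |s - t| := by
  have hs := Finf_summable hM0 hM he s
  have ht := Finf_summable hM0 hM he t
  have e1 : Finf M e s - Finf M e t =
      (s - t) + ∑' j, (M j * |s - e j| - M j * |t - e j|) := by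
    unfold Finf
    rw [hs.tsum_sub ht]; ring
  rw [e1]
  have hb : ∀ j, ‖M j * |s - e j| - M j * |t - e j|‖ ≤ M j * |s - t| := by
    intro j
    rw [← mul_sub, Real.norm_eq_abs, abs_mul, abs_of_nonneg (hM0 j)]
    apply mul_le_mul_of_nonneg_left _ (hM0 j)
    have := abs_abs_sub_abs_le_abs_sub (s - e j) (t - e j)
    calc _ ≤ |s - e j - (t - e j)| := this
      _ = |s - t| := by congr 1; ring
  have h1 : ‖∑' j, (M j * |s - e j| - M j * |t - e j|)‖ ≤ ∑' j, M j * |s - t| :=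
    tsum_of_norm_bounded (hM.mul_right _).hasSum hb
  rw [tsum_mul_right, Real.norm_eq_abs] at h1
  calc |s - t + ∑' j, (M j * |s - e j| - M j * |t - e j|)|
      ≤ |s - t| + |∑' j, (M j * |s - e j| - M j * |t - e j|)| := abs_add_le _ _
    _ ≤ |s - t| + (∑' j, M j) * |s - t| := by linarith
    _ = (1 + ∑' j, M j) * |s - t| := by ring

lemma hasFDerivAt_zero_comp {F : ℝ → ℝ} {L : ℝ} (hF : ∀ s t, |F s - F t| ≤ L * |s - t|)
    {f : ℂ → ℝ} {z : ℂ} (hf : HasFDerivAt f (0 : ℂ →L[ℝ] ℝ) z) :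
    HasFDerivAt (fun w => F (f w)) (0 : ℂ →L[ℝ] ℝ) z := by
  rw [hasFDerivAt_iff_isLittleO] at hf ⊢
  simp only [ContinuousLinearMap.zero_apply, sub_zero] at hf ⊢
  refine Asymptotics.IsBigO.trans_isLittleO ?_ hf
  apply Asymptotics.IsBigO.of_bound L
  filter_upwards with w
  rw [Real.norm_eq_abs, Real.norm_eq_abs]
  exact hF (f w) (f z)

/-- Covering hypothesis with radii depending on the interval. -/
def CovR (f : ℂ → ℝ) (B S : Set ℂ) : Prop :=
  ∀ d > (0:ℝ), ∀ ζ > (0:ℝ), ∃ (ι : Type) (e δ r M : ι → ℝ),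
    ∑' k, ENNReal.ofReal (M k) ≤ ENNReal.ofReal ζ ∧
    (∀ k, 0 < r k ∧ r k < d ∧ 0 ≤ δ k ∧ 0 ≤ M k ∧ ∃ z ∈ B, f z = e k) ∧
    (∀ z ∈ S ∩ B, ∃ k, |f z - e k| ≤ δ k ∧ 4 * δ k ≤ ‖grad f z‖ * r k ∧
      ∀ w ∈ B, ‖w - z‖ = r k → 2 * |f w - f z - fderiv ℝ f z (w - z)| ≤ M k * δ k)

lemma CovR.mono {f : ℂ → ℝ} {B S T : Set ℂ} (h : CovR f B S) (hTS : T ⊆ S) : CovR f B T := by
  intro d hd ζ hζ
  obtain ⟨ι, e, δ, r, M, h1, h2, h3⟩ := h d hd ζ hζ
  exact ⟨ι, e, δ, r, M, h1, h2, fun z hz => h3 z ⟨hTS hz.1, hz.2⟩⟩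

lemma CovR.iUnion {f : ℂ → ℝ} {B : Set ℂ} {S : ℕ → Set ℂ} (h : ∀ j, CovR f B (S j)) :
    CovR f B (⋃ j, S j) := by
  intro d hd ζ hζ
  obtain ⟨ε', hε'pos, cc, hε'sum, hcc⟩ := posSumOfEncodable hζ ℕ
  choose ι e δ r M h1 h2 h3 using fun j => h j d hd (ε' j) (hε'pos j)
  refine ⟨(j : ℕ) × ι j, fun p => e p.1 p.2, fun p => δ p.1 p.2, fun p => r p.1 p.2,
    fun p => M p.1 p.2, ?_, fun p => h2 p.1 p.2, ?_⟩
  · rw [ENNReal.tsum_sigma']
    calc ∑' j, ∑' k, ENNReal.ofReal (M j k) ≤ ∑' j, ENNReal.ofReal (ε' j) :=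
          ENNReal.tsum_le_tsum h1
      _ = ENNReal.ofReal (∑' j, ε' j) := by
          rw [ENNReal.ofReal_tsum_of_nonneg (fun n => (hε'pos n).le) hε'sum.summable]
      _ ≤ ENNReal.ofReal ζ := by
          rw [hε'sum.tsum_eq]
          exact ENNReal.ofReal_le_ofReal hcc
  · intro z hz
    obtain ⟨j, hj⟩ := mem_iUnion.1 hz.1
    obtain ⟨k, hk⟩ := h3 j z ⟨hj, hz.2⟩
    exact ⟨⟨j, k⟩, hk⟩

lemma CovR_of_Cov {f : ℂ → ℝ} {B S : Set ℂ} {N : ℕ} (hN : 0 < N) (h : Cov N f B S)
    (hg : ∀ z ∈ S ∩ B, 4 ≤ ‖grad f z‖ * N) : CovR f B S := by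
  intro d hd ζ hζ
  have hNr : (0:ℝ) < N := by exact_mod_cast hN
  obtain ⟨ι, e, δ, m, h1, h2, h3⟩ := h (d / N) (by positivity) (ζ / (2 * N)) (by positivity)
  refine ⟨ι, e, δ, fun k => N * δ k, fun k => 2 * N * m k, ?_, ?_, ?_⟩
  · have h4 : ∀ k, ENNReal.ofReal (2 * N * m k) = ENNReal.ofReal (2 * N) * ENNReal.ofReal (m k) :=
      fun k => ENNReal.ofReal_mul (by positivity)
    simp only [h4]
    rw [ENNReal.tsum_mul_left]
    calc ENNReal.ofReal (2 * N) * ∑' k, ENNReal.ofReal (m k)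
        ≤ ENNReal.ofReal (2 * N) * ENNReal.ofReal (ζ / (2 * N)) := by gcongr
      _ = ENNReal.ofReal ζ := by
        rw [← ENNReal.ofReal_mul (by positivity)]
        congr 1
        field_simp
  · intro k
    obtain ⟨h5, h6, h7, h8⟩ := h2 k
    refine ⟨by positivity, ?_, h5.le, by positivity, h8⟩
    rw [lt_div_iff₀ hNr] at h6
    linarith
  · intro z hz
    obtain ⟨k, hk1, hk2⟩ := h3 z hz
    refine ⟨k, hk1, ?_, ?_⟩
    · have h5 := (h2 k).1
      have h6 := hg z hz
      nlinarith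
    · intro w hw hwz
      have h7 := hk2 w hw hwz
      have : 2 * (N:ℝ) * m k * δ k = 2 * (m k * (N * δ k)) := by ring
      rw [this]
      linarith

/-- The main analytic theorem: `f` is only continuous on `G` and differentiable at the points of
`G \ G'`. -/
theorem submean_general {G G' : Set ℂ} (hG' : IsOpen G') {f : ℂ → ℝ}
    (hfc : ContinuousOn f G) (hdiff : ∀ z ∈ G \ G', DifferentiableAt ℝ f z)
    (hS : ∀ (c : ℂ) (r : ℝ), 0 < r → closedBall c r ⊆ G' → f c ≤ Real.circleAverage f c r)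
    (hcov : ∀ (c : ℂ) (r : ℝ), 0 < r → closedBall c r ⊆ G →
      CovR f (closedBall c r) {z ∈ G \ G' | fderiv ℝ f z ≠ 0}) :
    ∀ (c : ℂ) (R : ℝ), 0 < R → closedBall c R ⊆ G → f c ≤ Real.circleAverage f c R := by
  classical
  intro c R hR hsub
  by_contra hfail
  push Not at hfail
  have hfcR : ContinuousOn f (closedBall c R) := hfc.mono hsub
  have hcov' := hcov c R hR hsub
  set B : Set ℂ := closedBall c R with hB
  have hBcomp : IsCompact B := isCompact_closedBall c R
  have hcB : c ∈ B := mem_closedBall_self hR.le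
  -- step 1: harmonic polynomial
  set κ0 : ℝ := (f c - Real.circleAverage f c R) / 8 with hκ0
  have hκ0pos : 0 < κ0 := by rw [hκ0]; linarith
  obtain ⟨p, hp⟩ := exists_poly_approx hR (hfcR.mono sphere_subset_closedBall) hκ0pos
  have hSMh : SM (fun z => (p.eval z).re) 0 := SM_re_entire p.differentiable
  have hhc : (p.eval c).re ≤ f c - 7 * κ0 := by
    have h1 : Real.circleAverage (fun z => (p.eval z).re) c R = (p.eval c).re := by
      rw [hSMh.2]; ring
    have h2 : Real.circleAverage (fun z => (p.eval z).re) c R ≤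
        Real.circleAverage (fun z => f z + κ0) c R := by
      apply Real.circleAverage_mono (circInt_of_cont hSMh.1 _ _)
      · apply ContinuousOn.circleIntegrable hR.le
        exact (hfcR.mono sphere_subset_closedBall).add continuousOn_const
      · intro x hx
        rw [abs_of_pos hR] at hx
        have := (abs_le.1 (hp x hx)).1
        linarith
    have h3 : Real.circleAverage (fun z => f z + κ0) c R = Real.circleAverage f c R + κ0 := by
      rw [Real.circleAverage_fun_add _ (circInt_of_cont continuous_const _ _),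
        Real.circleAverage_const]
      exact ContinuousOn.circleIntegrable hR.le (hfcR.mono sphere_subset_closedBall)
    rw [h1, h3] at h2
    have : f c = Real.circleAverage f c R + 8 * κ0 := by rw [hκ0]; ring
    linarith
  -- step 2: comparison function
  set ε : ℝ := κ0 / R ^ 2 with hε
  have hεpos : 0 < ε := by positivity
  have hεR : ε * R ^ 2 = κ0 := by rw [hε]; field_simp
  set ψ : ℂ → ℝ := cmp p c c ε 0 with hψ
  have hψSM : SM ψ ε := by
    have := cmp_SM p c c ε 0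
    rwa [sub_zero] at this
  have hψcont : Continuous ψ := hψSM.1
  have hψc : ψ c = (p.eval c).re := by simp [hψ, Pool.Agent.Helper119.Kral.cmp]
  have hsph : ∀ z ∈ sphere c R, f z - ψ z ≤ f c - ψ c - 5 * κ0 := by
    intro z hz
    have h3 : ψ z = (p.eval z).re - κ0 := by
      have : ‖z - c‖ = R := mem_sphere_iff_norm.1 hz
      simp only [hψ, Pool.Agent.Helper119.Kral.cmp, this]
      linarith
    have h4 := (abs_le.1 (hp z hz)).2
    rw [hψc, h3]
    linarith
  -- step 3: a compact set inside the open disc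
  set K : Set ℂ := B ∩ (fun z => f z - ψ z) ⁻¹' (Ici (f c - ψ c - 4 * κ0)) with hK
  have hKc : IsCompact K := by
    apply hBcomp.of_isClosed_subset _ inter_subset_left
    exact (hfcR.sub hψcont.continuousOn).preimage_isClosed_of_isClosed isClosed_closedBall
      isClosed_Ici
  have hcK : c ∈ K := ⟨hcB, by simp only [mem_preimage, mem_Ici]; linarith⟩
  obtain ⟨zm, hzmK, hzm⟩ := hKc.exists_isMaxOn ⟨c, hcK⟩
    (continuous_norm.comp (continuous_id.sub continuous_const) :
      Continuous fun z : ℂ => ‖z - c‖).continuousOn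
  set R1 : ℝ := ‖zm - c‖ with hR1
  have hR1R : R1 < R := by
    have h1 : R1 ≤ R := by
      have := hzmK.1
      rw [hB, mem_closedBall, dist_eq_norm] at this
      exact this
    refine lt_of_le_of_ne h1 (fun h => ?_)
    have h2 := hsph zm (mem_sphere_iff_norm.2 h)
    have h3 : f c - ψ c - 4 * κ0 ≤ f zm - ψ zm := hzmK.2
    linarith
  have hR10 : 0 ≤ R1 := norm_nonneg _
  have hKR1 : ∀ z ∈ B, f c - ψ c - 4 * κ0 ≤ f z - ψ z → ‖z - c‖ ≤ R1 := fun z hz h =>
    hzm (⟨hz, h⟩ : z ∈ K)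
  set ϱ : ℝ := (R - R1) / 2 with hϱ
  have hϱpos : 0 < ϱ := by rw [hϱ]; linarith
  -- step 4: bounds and the family
  obtain ⟨Cb, hCb⟩ := hBcomp.exists_bound_of_continuousOn hfcR
  have hCb0 : 0 ≤ Cb := (norm_nonneg _).trans (hCb c hcB)
  set D : ℝ := 2 * Cb + 1 with hD
  have hDpos : 0 < D := by rw [hD]; linarith
  have hosc : ∀ u ∈ B, ∀ v ∈ B, |f u - f v| ≤ D := by
    intro u hu v hv
    have h1 := hCb u hu
    have h2 := hCb v hv
    rw [Real.norm_eq_abs] at h1 h2
    calc |f u - f v| ≤ |f u| + |f v| := abs_sub _ _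
      _ ≤ D := by rw [hD]; linarith
  have hζpos : 0 < min 1 (κ0 / D) := by positivity
  obtain ⟨ι, e, δ, rr, M, hMsum', hSd, hScov⟩ := hcov' ϱ hϱpos (min 1 (κ0 / D)) hζpos
  have hM0 : ∀ k, 0 ≤ M k := fun k => (hSd k).2.2.2.1
  have hMsummable : Summable M := by
    have h1 : ∑' k, ENNReal.ofReal (M k) ≠ ⊤ := ne_top_of_le_ne_top ENNReal.ofReal_ne_top hMsum'
    have h2 := ENNReal.summable_toReal h1
    simpa only [ENNReal.toReal_ofReal (hM0 _)] using h2
  have hMsum : ∑' k, M k ≤ min 1 (κ0 / D) := by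
    rw [← ENNReal.ofReal_tsum_of_nonneg hM0 hMsummable] at hMsum'
    exact (ENNReal.ofReal_le_ofReal_iff hζpos.le).1 hMsum'
  have hM1 : ∑' k, M k ≤ 1 := hMsum.trans (min_le_left _ _)
  have hM1S : ∀ S : Finset ι, ∑ k ∈ S, M k ≤ 1 := fun S =>
    (hMsummable.sum_le_tsum S (fun k _ => hM0 k)).trans hM1
  have hM2 : (∑' k, M k) * D ≤ κ0 := by
    have := hMsum.trans (min_le_right _ _)
    rwa [le_div_iff₀ hDpos] at this
  have heC : ∀ k, |e k| ≤ Cb := by
    intro k
    obtain ⟨w, hw, hwe⟩ := (hSd k).2.2.2.2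
    rw [← hwe]
    exact hCb w hw
  have hFup : ∀ z ∈ B, Finf M e (f z) ≤ f z + κ0 := by
    intro z hz
    unfold Finf
    have : ∑' j, M j * |f z - e j| ≤ ∑' j, M j * D := by
      apply (Finf_summable hM0 hMsummable heC (f z)).tsum_le_tsum _ (hMsummable.mul_right D)
      intro j
      apply mul_le_mul_of_nonneg_left _ (hM0 j)
      obtain ⟨w, hw, hwe⟩ := (hSd j).2.2.2.2
      rw [← hwe]
      exact hosc z hz w hw
    rw [tsum_mul_right] at this
    linarith
  have hFlow : ∀ z, f z ≤ Finf M e (f z) := by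
    intro z
    unfold Finf
    have : 0 ≤ ∑' j, M j * |f z - e j| :=
      tsum_nonneg fun j => mul_nonneg (hM0 j) (abs_nonneg _)
    linarith
  have hFcont : Continuous (Finf M e) := Finf_cont hM0 hMsummable heC
  have hgB : ContinuousOn (fun z => Finf M e (f z)) B := hFcont.comp_continuousOn hfcR
  -- step 5: the maximum principle
  have key : ∀ (Φ : ℂ → ℝ) (κ' : ℝ), 0 < κ' → SM Φ κ' → ∀ zs ∈ B, ‖zs - c‖ ≤ R1 + ϱ →
      (∀ z ∈ B, Finf M e (f z) - Φ z ≤ Finf M e (f zs) - Φ zs) →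
      zs ∉ G' ∧ fderiv ℝ f zs = 0 := by
    intro Φ κ' hκ' hΦ zs hzsB hzsR hmaxzs
    have hcbB : ∀ r ≤ ϱ, closedBall zs r ⊆ B := by
      intro r hr w hw
      rw [hB, mem_closedBall, dist_eq_norm]
      rw [mem_closedBall, dist_eq_norm] at hw
      calc ‖w - c‖ = ‖(w - zs) + (zs - c)‖ := by congr 1; ring
        _ ≤ ‖w - zs‖ + ‖zs - c‖ := norm_add_le _ _
        _ ≤ R := by rw [hϱ] at hr hzsR; linarith
    have hcontra : ∀ r > 0, r ≤ ϱ →
        ¬ (∃ S0 : Finset ι, ∀ S : Finset ι, S0 ⊆ S →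
          Fpert S M e (f zs) ≤ Real.circleAverage (fun w => Fpert S M e (f w)) zs r) := by
      intro r hr hrϱ hh
      obtain ⟨S0, hS0⟩ := hh
      have hrB := hcbB r hrϱ
      have hfS : ContinuousOn f (sphere zs r) := hfcR.mono (sphere_subset_closedBall.trans hrB)
      have hfi : CircleIntegrable (fun w => Finf M e (f w)) zs r :=
        ContinuousOn.circleIntegrable hr.le (hFcont.comp_continuousOn hfS)
      have hsm : Finf M e (f zs) ≤ Real.circleAverage (fun w => Finf M e (f w)) zs r := by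
        apply Finf_le_of_forall hM0 hMsummable heC S0
        intro S hSS
        refine (hS0 S hSS).trans ?_
        apply Real.circleAverage_mono
        · exact ContinuousOn.circleIntegrable hr.le ((Fpert_cont S M e).comp_continuousOn hfS)
        · exact hfi
        · intro w _
          exact Fpert_le_Finf hM0 hMsummable heC S (f w)
      have h1 : Real.circleAverage (fun w => Finf M e (f w) - Φ w) zs r ≤
          Finf M e (f zs) - Φ zs := by
        apply Real.circleAverage_mono_on_of_le_circle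
        · exact hfi.sub (circInt_of_cont hΦ.1 _ _)
        · intro w hw
          rw [abs_of_pos hr] at hw
          exact hmaxzs w (hrB (sphere_subset_closedBall hw))
      rw [Real.circleAverage_fun_sub hfi (circInt_of_cont hΦ.1 _ _), hΦ.2] at h1
      have h2 : 0 < κ' * r ^ 2 := by positivity
      linarith
    have hnG' : zs ∉ G' := by
      intro hzG'
      obtain ⟨t, ht, htG⟩ := Metric.isOpen_iff.1 hG' zs hzG'
      set r : ℝ := min (t / 2) ϱ with hr
      have hrpos : 0 < r := lt_min (by linarith) hϱpos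
      have hrG' : closedBall zs r ⊆ G' := by
        refine (closedBall_subset_ball ?_).trans htG
        have : r ≤ t / 2 := min_le_left _ _
        linarith
      apply hcontra r hrpos (min_le_right _ _)
      refine ⟨∅, fun S _ => ?_⟩
      apply Fpert_submean_of_submean S M e (fun j _ => hM0 j) (hM1S S) hrpos
      · exact hfcR.mono (sphere_subset_closedBall.trans (hcbB r (min_le_right _ _)))
      · exact hS zs r hrpos hrG'
    refine ⟨hnG', ?_⟩
    by_contra hne
    obtain ⟨k, hfk, h4, hmod⟩ := hScov zs ⟨⟨⟨hsub hzsB, hnG'⟩, hne⟩, hzsB⟩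
    obtain ⟨hr0, hrd, hδ0, hMk0, -⟩ := hSd k
    have hrB := hcbB (rr k) hrd.le
    apply hcontra (rr k) hr0 hrd.le
    refine ⟨{k}, fun S hkS => ?_⟩
    have hk : k ∈ S := hkS (Finset.mem_singleton_self k)
    have hTaylor : ∀ w ∈ sphere zs (rr k), |f w - f zs - (grad f zs * (w - zs)).re| ≤
        M k * δ k / 2 := by
      intro w hw
      have h1 := hmod w (hrB (sphere_subset_closedBall hw)) (mem_sphere_iff_norm.1 hw)
      rw [fderiv_apply_eq_grad] at h1
      linarith
    apply Fpert_submean_of_cover S M e (fun j _ => hM0 j) (hM1S S) hr0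
      (hfcR.mono (sphere_subset_closedBall.trans hrB)) (by positivity) hTaylor hk hfk
    · linarith
    · linarith
  -- step 6: the maximum of g - ψ
  obtain ⟨z0, hz0B, hz0max⟩ := hBcomp.exists_isMaxOn ⟨c, hcB⟩ (hgB.sub hψcont.continuousOn)
  have hz0max' : ∀ z ∈ B, Finf M e (f z) - ψ z ≤ Finf M e (f z0) - ψ z0 := fun z hz => hz0max hz
  have hz0R1 : ‖z0 - c‖ ≤ R1 := by
    apply hKR1 z0 hz0B
    have h1 := hz0max' c hcB
    have h2 := hFlow c
    have h3 := hFup z0 hz0B
    linarith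
  obtain ⟨hz0G', hz0d⟩ := key ψ ε hεpos hψSM z0 hz0B (by linarith) hz0max'
  have hball : ∀ z : ℂ, ‖z - c‖ < R → B ∈ 𝓝 z := fun z hz =>
    Filter.mem_of_superset (isOpen_ball.mem_nhds (by rwa [mem_ball, dist_eq_norm]))
      ball_subset_closedBall
  have hBmem : ∀ z : ℂ, ‖z - c‖ ≤ R → z ∈ B := fun z hz => by
    rw [hB, mem_closedBall, dist_eq_norm]; exact hz
  -- derivative of a comparison function at a maximum point which is a critical point of f
  have hder : ∀ (Φ : ℂ → ℝ) (Φ' : ℂ →L[ℝ] ℝ) (zs : ℂ), ‖zs - c‖ < R → zs ∉ G' →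
      fderiv ℝ f zs = 0 → HasFDerivAt Φ Φ' zs →
      (∀ z ∈ B, Finf M e (f z) - Φ z ≤ Finf M e (f zs) - Φ zs) → Φ' = 0 := by
    intro Φ Φ' zs hzs hzsG' hfd hΦ hmaxzs
    have hzsB : zs ∈ B := hBmem zs hzs.le
    have h1 : HasFDerivAt f (0 : ℂ →L[ℝ] ℝ) zs := by
      have := (hdiff zs ⟨hsub hzsB, hzsG'⟩).hasFDerivAt
      rwa [hfd] at this
    have h2 : HasFDerivAt (fun w => Finf M e (f w)) (0 : ℂ →L[ℝ] ℝ) zs :=
      hasFDerivAt_zero_comp (Finf_lip hM0 hMsummable heC) h1
    have hloc : IsLocalMax (fun z => Finf M e (f z) - Φ z) zs := by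
      filter_upwards [hball zs hzs] with z hz using hmaxzs z hz
    have h3 := hloc.hasFDerivAt_eq_zero (h2.sub hΦ)
    rw [zero_sub, neg_eq_zero] at h3
    exact h3
  have hψ0 : fderiv ℝ ψ z0 = 0 := by
    have h1 := cmp_hasFDerivAt p c c ε 0 z0
    have h2 := hder ψ _ z0 (by linarith) hz0G' hz0d h1 hz0max'
    rw [h1.fderiv]
    exact h2
  have hA0 : p.derivative.eval z0 = 2 * ε * (starRingEnd ℂ) (z0 - c) := by
    have := gradA_eq_zero (p := p) (c := c) (z0 := c) (ε := ε) (s := 0) (w := z0) hψ0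
    unfold gradA at this
    simp only [Complex.ofReal_zero, mul_zero, zero_mul, add_zero] at this
    linear_combination this
  obtain ⟨s, hs0, hsε, δi, hδi, hiso⟩ := exists_isolated p c z0 hεpos hA0
  set φ' : ℂ → ℝ := cmp p c z0 ε s with hφ'
  have hφ'SM : SM φ' (ε - s) := cmp_SM p c z0 ε s
  have hφ'ψ : ∀ z, φ' z = ψ z + s * ‖z - z0‖ ^ 2 := by
    intro z; simp only [hφ', hψ, Pool.Agent.Helper119.Kral.cmp]; ring
  set M0 : ℝ := Finf M e (f z0) - φ' z0 with hM0'
  have hMM : ∀ z ∈ B, Finf M e (f z) - φ' z ≤ M0 - s * ‖z - z0‖ ^ 2 := by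
    intro z hz
    have := hz0max' z hz
    rw [hM0', hφ'ψ z, hφ'ψ z0]
    simp only [sub_self, norm_zero]
    linarith
  set ρ : ℝ := min ϱ (δi / 4) with hρ
  have hρpos : 0 < ρ := lt_min hϱpos (by linarith)
  have hρϱ : ρ ≤ ϱ := min_le_left _ _
  have hρδ : ρ ≤ δi / 4 := min_le_right _ _
  have huc := (isCompact_closedBall c (R + 1)).uniformContinuousOn_of_continuous
    hφ'SM.1.continuousOn
  rw [Metric.uniformContinuousOn_iff] at huc
  obtain ⟨η, hη, huc⟩ := huc (s * ρ ^ 2 / 4) (by positivity)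
  set y0 : ℝ := min (min η 1) ρ with hy0
  have hy0pos : 0 < y0 := lt_min (lt_min hη one_pos) hρpos
  have hy0η : y0 ≤ η := (min_le_left _ _).trans (min_le_left _ _)
  have hy01 : y0 ≤ 1 := (min_le_left _ _).trans (min_le_right _ _)
  have hy0ρ : y0 ≤ ρ := min_le_right _ _
  have hclose : ∀ y : ℂ, ‖y‖ < y0 → ∀ z ∈ B, |φ' (z - y) - φ' z| < s * ρ ^ 2 / 4 := by
    intro y hy z hz
    have h1 : z - y ∈ closedBall c (R + 1) := by
      rw [hB, mem_closedBall, dist_eq_norm] at hz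
      rw [mem_closedBall, dist_eq_norm]
      have : z - y - c = (z - c) - y := by ring
      rw [this]
      calc ‖z - c - y‖ ≤ ‖z - c‖ + ‖y‖ := norm_sub_le _ _
        _ ≤ R + 1 := by linarith
    have h2 : z ∈ closedBall c (R + 1) := closedBall_subset_closedBall (by linarith) hz
    have h3 := huc (z - y) h1 z h2 (by
      rw [dist_eq_norm]
      have : z - y - z = -y := by ring
      rw [this, norm_neg]
      linarith)
    rwa [Real.dist_eq] at h3
  -- the gradient of f vanishes near z0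
  have hvan : ∀ y : ℂ, ‖y‖ < y0 → z0 + y ∉ G' ∧ fderiv ℝ f (z0 + y) = 0 := by
    intro y hy
    have hcont : ContinuousOn (fun z => Finf M e (f z) - φ' (z - y)) B := by
      apply hgB.sub
      exact (hφ'SM.1.comp (continuous_id.sub continuous_const)).continuousOn
    obtain ⟨zy, hzyB, hzymax⟩ := hBcomp.exists_isMaxOn ⟨c, hcB⟩ hcont
    have hzymax' : ∀ z ∈ B, Finf M e (f z) - φ' (z - y) ≤ Finf M e (f zy) - φ' (zy - y) :=
      fun z hz => hzymax hz
    have hzyρ : ‖zy - z0‖ < ρ := by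
      by_contra hnot
      push Not at hnot
      have h1 := hMM zy hzyB
      have h2 := (abs_lt.1 (hclose y hy zy hzyB)).1
      have h3 := hzymax' z0 hz0B
      have h4 := (abs_lt.1 (hclose y hy z0 hz0B)).2
      have h5 : s * ρ ^ 2 ≤ s * ‖zy - z0‖ ^ 2 := by
        apply mul_le_mul_of_nonneg_left _ hs0.le
        exact pow_le_pow_left₀ hρpos.le hnot 2
      have h6 : 0 < s * ρ ^ 2 := by positivity
      linarith
    have hzyc : ‖zy - c‖ ≤ R1 + ρ := by
      calc ‖zy - c‖ = ‖(zy - z0) + (z0 - c)‖ := by congr 1; ring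
        _ ≤ ‖zy - z0‖ + ‖z0 - c‖ := norm_add_le _ _
        _ ≤ R1 + ρ := by linarith
    have hzyR : ‖zy - c‖ < R := by
      have : R1 + ϱ < R := by rw [hϱ]; linarith
      linarith
    obtain ⟨hzyG', hzyd⟩ := key (fun z => φ' (z - y)) (ε - s) (by linarith) (hφ'SM.translate y)
      zy hzyB (by linarith) hzymax'
    have hd2 : HasFDerivAt (fun z => φ' (z - y)) (fderiv ℝ φ' (zy - y)) zy := by
      have hdd : DifferentiableAt ℝ φ' (zy - y) :=
        (cmp_hasFDerivAt p c z0 ε s (zy - y)).differentiableAt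
      have := hdd.hasFDerivAt.comp zy ((hasFDerivAt_id (𝕜 := ℝ) zy).sub_const y)
      exact this.congr_fderiv (ContinuousLinearMap.comp_id _)
    have h2 := hder (fun z => φ' (z - y)) _ zy hzyR hzyG' hzyd hd2 hzymax'
    have h3 : gradA p c z0 ε s (zy - y) = 0 := gradA_eq_zero h2
    have h4 : zy - y = z0 := by
      apply hiso _ _ h3
      have : zy - y - z0 = (zy - z0) - y := by ring
      rw [this]
      calc ‖zy - z0 - y‖ ≤ ‖zy - z0‖ + ‖y‖ := norm_sub_le _ _
        _ < δi := by linarith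
    have h5 : z0 + y = zy := by rw [← h4]; ring
    rw [h5]
    exact ⟨hzyG', hzyd⟩
  have hsubB : ball z0 y0 ⊆ B := by
    intro w hw
    rw [mem_ball, dist_eq_norm] at hw
    apply hBmem
    calc ‖w - c‖ = ‖(w - z0) + (z0 - c)‖ := by congr 1; ring
      _ ≤ ‖w - z0‖ + ‖z0 - c‖ := norm_add_le _ _
      _ ≤ R := by
        have : R1 + ϱ < R := by rw [hϱ]; linarith
        linarith
  have hvan' : ∀ w ∈ ball z0 y0, w ∉ G' ∧ fderiv ℝ f w = 0 := by
    intro w hw
    have := hvan (w - z0) (by rwa [← dist_eq_norm])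
    rwa [add_sub_cancel] at this
  have hconst : ∀ z ∈ ball z0 y0, f z = f z0 := by
    intro z hz
    apply (convex_ball z0 y0).is_const_of_fderivWithin_eq_zero (𝕜 := ℝ)
      (fun w hw => (hdiff w ⟨hsub (hsubB hw), (hvan' w hw).1⟩).differentiableWithinAt) _ hz
      (mem_ball_self hy0pos)
    intro w hw
    rw [fderivWithin_of_isOpen isOpen_ball hw]
    exact (hvan' w hw).2
  -- contradiction with the circle average of φ'
  have hr : (0:ℝ) < y0 / 2 := by linarith
  have h1 : φ' z0 ≤ Real.circleAverage φ' z0 (y0 / 2) := by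
    rw [← Real.circleAverage_const (φ' z0) z0 (y0 / 2)]
    apply Real.circleAverage_mono (circInt_of_cont continuous_const _ _)
      (circInt_of_cont hφ'SM.1 _ _)
    intro w hw
    rw [abs_of_pos hr, mem_sphere, dist_eq_norm] at hw
    have hwb : w ∈ ball z0 y0 := by rw [mem_ball, dist_eq_norm, hw]; linarith
    have h2 := hMM w (hsubB hwb)
    rw [hconst w hwb, hM0'] at h2
    have : 0 ≤ s * ‖w - z0‖ ^ 2 := by positivity
    linarith
  rw [hφ'SM.2] at h1
  have : 0 < (ε - s) * (y0 / 2) ^ 2 := by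
    apply mul_pos (by linarith)
    positivity
  linarith

end Pool.Agent.Y257.KR
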