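import Pool.Agent.Y257.KR.Crit

open MeasureTheory Metric Set Filter Topology
open Pool.Agent.Helper119.Kral

namespace Pool.Agent.Y257.KR

/-- The convex increasing perturbation of the identity, with infinitely many corners. -/
noncomputable def Finf {ι : Type} (M e : ι → ℝ) (s : ℝ) : ℝ :=
  s + ∑' j, M j * |s - e j|

variable {ι : Type} {M e : ι → ℝ} {C : ℝ}

lemma Finf_summable (hM0 : ∀ j, 0 ≤ M j) (hM : Summable M) (he : ∀ j, |e j| ≤ C) (s : ℝ) :
    Summable (fun j => M j * |s - e j|) := by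
  refine Summable.of_nonneg_of_le (fun j => mul_nonneg (hM0 j) (abs_nonneg _)) ?_
    (hM.mul_right (|s| + C))
  intro j
  apply mul_le_mul_of_nonneg_left _ (hM0 j)
  calc |s - e j| ≤ |s| + |e j| := abs_sub _ _
    _ ≤ |s| + C := by linarith [he j]

lemma Finf_cont (hM0 : ∀ j, 0 ≤ M j) (hM : Summable M) (he : ∀ j, |e j| ≤ C) :
    Continuous (Finf M e) := by
  have hMn : 0 ≤ ∑' j, M j := tsum_nonneg hM0
  have hL : LipschitzWith (Real.toNNReal (1 + ∑' j, M j)) (Finf M e) := by
    apply LipschitzWith.of_dist_le_mul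
    intro s t
    rw [Real.dist_eq, Real.dist_eq, Real.coe_toNNReal _ (by linarith)]
    have hs := Finf_summable hM0 hM he s
    have ht := Finf_summable hM0 hM he t
    have e1 : Finf M e s - Finf M e t =
        (s - t) + ∑' j, (M j * |s - e j| - M j * |t - e j|) := by
      unfold Finf
      rw [hs.tsum_sub ht]; ring
    rw [e1]
    have hb : ∀ j, ‖M j * |s - e j| - M j * |t - e j|‖ ≤ M j * |s - t| := by
      intro j
      rw [← mul_sub, Real.norm_eq_abs, abs_mul, abs_of_nonneg (hM0 j)]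
      apply mul_le_mul_of_nonneg_left _ (hM0 j)
      have := abs_abs_sub_abs_le_abs_sub (s - e j) (t - e j)
      calc _ ≤ |s - e j - (t - e j)| := this
        _ = |s - t| := by congr 1; ring
    have h1 : ‖∑' j, (M j * |s - e j| - M j * |t - e j|)‖ ≤ ∑' j, M j * |s - t| :=
      tsum_of_norm_bounded (hM.mul_right _).hasSum hb
    rw [tsum_mul_right, Real.norm_eq_abs] at h1
    calc |s - t + ∑' j, (M j * |s - e j| - M j * |t - e j|)|
        ≤ |s - t| + |∑' j, (M j * |s - e j| - M j * |t - e j|)| := abs_add_le _ _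
      _ ≤ |s - t| + (∑' j, M j) * |s - t| := by linarith
      _ = (1 + ∑' j, M j) * |s - t| := by ring
  exact hL.continuous

lemma Fpert_le_Finf (hM0 : ∀ j, 0 ≤ M j) (hM : Summable M) (he : ∀ j, |e j| ≤ C)
    (S : Finset ι) (s : ℝ) : Fpert S M e s ≤ Finf M e s := by
  unfold Fpert Finf
  have := (Finf_summable hM0 hM he s).sum_le_tsum S
    (fun j _ => mul_nonneg (hM0 j) (abs_nonneg _))
  linarith

lemma Finf_le_of_forall (hM0 : ∀ j, 0 ≤ M j) (hM : Summable M) (he : ∀ j, |e j| ≤ C)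
    {s T : ℝ} (S0 : Finset ι) (h : ∀ S : Finset ι, S0 ⊆ S → Fpert S M e s ≤ T) :
    Finf M e s ≤ T := by
  classical
  unfold Finf
  have h1 : ∑' j, M j * |s - e j| ≤ T - s := by
    apply (Finf_summable hM0 hM he s).tsum_le_of_sum_le
    intro S
    have h1 := h (S ∪ S0) Finset.subset_union_right
    have h2 : ∑ j ∈ S, M j * |s - e j| ≤ ∑ j ∈ S ∪ S0, M j * |s - e j| :=
      Finset.sum_le_sum_of_subset_of_nonneg Finset.subset_union_left
        (fun j _ _ => mul_nonneg (hM0 j) (abs_nonneg _))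
    unfold Fpert at h1
    linarith
  linarith

/-- Covering hypothesis, pointwise and with countably many (in fact summably many) intervals. -/
def Cov (N : ℕ) (f : ℂ → ℝ) (B S : Set ℂ) : Prop :=
  ∀ d > (0:ℝ), ∀ ζ > (0:ℝ), ∃ (ι : Type) (e δ m : ι → ℝ),
    ∑' k, ENNReal.ofReal (m k) ≤ ENNReal.ofReal ζ ∧
    (∀ k, 0 < δ k ∧ δ k < d ∧ 0 ≤ m k ∧ ∃ z ∈ B, f z = e k) ∧
    (∀ z ∈ S ∩ B, ∃ k, |f z - e k| ≤ δ k ∧
      ∀ w ∈ B, ‖w - z‖ = N * δ k → |f w - f z - fderiv ℝ f z (w - z)| ≤ m k * (N * δ k))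

theorem submean_of_cov {G G' : Set ℂ} (hG : IsOpen G) (hG' : IsOpen G') {f : ℂ → ℝ}
    (hf : ContDiffOn ℝ 1 f G)
    (hS : ∀ (c : ℂ) (r : ℝ), 0 < r → closedBall c r ⊆ G' → f c ≤ Real.circleAverage f c r)
    (hcov : ∀ (c : ℂ) (r : ℝ), 0 < r → closedBall c r ⊆ G → ∀ N : ℕ, 0 < N →
      Cov N f (closedBall c r) (G \ G')) :
    ∀ (c : ℂ) (R : ℝ), 0 < R → closedBall c R ⊆ G → f c ≤ Real.circleAverage f c R := by
  classical
  intro c R hR hsub
  by_contra hfail
  push Not at hfail
  obtain ⟨z1, hz1, ρ, hρ, κ, hκ, φ, hρG, hφ, hne, hmax⟩ := exists_touching hG hf hR hsub hfail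
  have hfc : ContinuousOn f G := hf.continuousOn
  have hdc : ContinuousOn (fderiv ℝ f) G := hf.continuousOn_fderiv_of_isOpen hG le_rfl
  set a : ℂ → ℂ := fun z => ((fderiv ℝ f z 1 : ℝ) : ℂ) - Complex.I * ((fderiv ℝ f z Complex.I : ℝ) : ℂ)
    with ha
  have hac : ContinuousOn a G := by
    have h1 : ContinuousOn (fun z => fderiv ℝ f z 1) G := hdc.clm_apply continuousOn_const
    have h2 : ContinuousOn (fun z => fderiv ℝ f z Complex.I) G := hdc.clm_apply continuousOn_const
    exact (Complex.continuous_ofReal.comp_continuousOn h1).sub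
      (continuousOn_const.mul (Complex.continuous_ofReal.comp_continuousOn h2))
  have ha1 : a z1 ≠ 0 := by
    intro h0
    apply hne
    ext1 v
    rw [clm_eq_re (fderiv ℝ f z1) v]
    have : ((fderiv ℝ f z1 1 : ℝ) : ℂ) - Complex.I * ((fderiv ℝ f z1 Complex.I : ℝ) : ℂ) = 0 := h0
    rw [this]
    simp
  have ha1pos : 0 < ‖a z1‖ := norm_pos_iff.2 ha1
  -- small ball where the gradient is bounded below
  obtain ⟨ρ', hρ'pos, hρ'ρ, hρ'a⟩ : ∃ ρ' > 0, ρ' ≤ ρ ∧ ∀ z ∈ closedBall z1 ρ', ‖a z1‖ / 2 ≤ ‖a z‖ := by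
    have hcat : ContinuousAt (fun z => ‖a z‖) z1 := (hac.continuousAt (hG.mem_nhds hz1)).norm
    have hev : ∀ᶠ z in 𝓝 z1, ‖a z1‖ / 2 < ‖a z‖ :=
      hcat.eventually (lt_mem_nhds (by linarith))
    rw [Metric.eventually_nhds_iff] at hev
    obtain ⟨e, he, hev⟩ := hev
    refine ⟨min ρ (e / 2), lt_min hρ (by linarith), min_le_left _ _, fun z hz => ?_⟩
    apply le_of_lt
    apply hev
    rw [mem_closedBall] at hz
    have := hz.trans (min_le_right _ _)
    linarith
  set B : Set ℂ := closedBall z1 ρ' with hB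
  have hBρ : B ⊆ closedBall z1 ρ := closedBall_subset_closedBall hρ'ρ
  have hBG : B ⊆ G := hBρ.trans hρG
  have hBcomp : IsCompact B := isCompact_closedBall z1 ρ'
  -- φ2
  set φ2 : ℂ → ℝ := fun z => φ z + (κ / 2) * ‖z - z1‖ ^ 2 with hφ2
  have hφ2SM : SM φ2 (κ / 2) := by
    have := hφ.add ((SM_normSq z1).const_mul (κ / 2))
    have e : κ + κ / 2 * -1 = κ / 2 := by ring
    rwa [e] at this
  have hmax2 : ∀ z ∈ B, f z - φ2 z ≤ f z1 - φ2 z1 - (κ / 2) * ‖z - z1‖ ^ 2 := by
    intro z hz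
    have := hmax z (hBρ hz)
    simp only [hφ2, sub_self, norm_zero]
    linarith
  -- bound for f
  obtain ⟨Cb, hCb⟩ := hBcomp.exists_bound_of_continuousOn (hfc.mono hBG)
  have hz1B : z1 ∈ B := mem_closedBall_self hρ'pos.le
  have hCb0 : 0 ≤ Cb := (norm_nonneg _).trans (hCb z1 hz1B)
  set D : ℝ := 2 * Cb + 1 with hD
  have hDpos : 0 < D := by rw [hD]; linarith
  have hosc : ∀ u ∈ B, ∀ v ∈ B, |f u - f v| ≤ D := by
    intro u hu v hv
    have h1 := hCb u hu
    have h2 := hCb v hv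
    rw [Real.norm_eq_abs] at h1 h2
    calc |f u - f v| ≤ |f u| + |f v| := abs_sub _ _
      _ ≤ D := by rw [hD]; linarith
  set η : ℝ := κ * ρ' ^ 2 / 16 with hη
  have hηpos : 0 < η := by positivity
  obtain ⟨N, hN⟩ := exists_nat_ge (8 / ‖a z1‖)
  have hNpos : (0:ℝ) < N := lt_of_lt_of_le (by positivity) hN
  have hNpos' : 0 < N := by exact_mod_cast hNpos
  have hNa : ∀ z ∈ B, 4 ≤ ‖a z‖ * N := by
    intro z hz
    have h1 := hρ'a z hz
    have h2 : 8 ≤ N * ‖a z1‖ := by rwa [div_le_iff₀ ha1pos] at hN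
    nlinarith
  have hζpos : 0 < min 1 (η / D) / (2 * N) := by positivity
  obtain ⟨ι, e, δ, m, hSsum, hSd, hScov⟩ := hcov z1 ρ' hρ'pos hBG N hNpos' (ρ' / (2 * N))
    (by positivity) (min 1 (η / D) / (2 * N)) hζpos
  have hm0 : ∀ k, 0 ≤ m k := fun k => (hSd k).2.2.1
  have hmsum : Summable m := by
    have h1 : ∑' k, ENNReal.ofReal (m k) ≠ ⊤ := ne_top_of_le_ne_top ENNReal.ofReal_ne_top hSsum
    have h2 := ENNReal.summable_toReal h1
    simpa only [ENNReal.toReal_ofReal (hm0 _)] using h2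
  have hmle : ∑' k, m k ≤ min 1 (η / D) / (2 * N) := by
    rw [← ENNReal.ofReal_tsum_of_nonneg hm0 hmsum] at hSsum
    exact (ENNReal.ofReal_le_ofReal_iff hζpos.le).1 hSsum
  set M : ι → ℝ := fun k => 2 * N * m k with hM
  have hM0 : ∀ k, 0 ≤ M k := fun k => by
    have := hm0 k
    simp only [hM]
    positivity
  have hMsummable : Summable M := hmsum.mul_left _
  have hMsum : ∑' k, M k ≤ min 1 (η / D) := by
    simp only [hM]
    rw [tsum_mul_left]
    have h2 : 2 * (N:ℝ) * ∑' k, m k ≤ 2 * (N:ℝ) * (min 1 (η / D) / (2 * N)) := by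
      apply mul_le_mul_of_nonneg_left hmle
      positivity
    have h3 : 2 * (N:ℝ) * (min 1 (η / D) / (2 * N)) = min 1 (η / D) := by
      field_simp
    linarith
  have hM1 : ∑' k, M k ≤ 1 := hMsum.trans (min_le_left _ _)
  have hM1S : ∀ S : Finset ι, ∑ k ∈ S, M k ≤ 1 := fun S =>
    (hMsummable.sum_le_tsum S (fun k _ => hM0 k)).trans hM1
  have hM2 : (∑' k, M k) * D ≤ η := by
    have := hMsum.trans (min_le_right _ _)
    rwa [le_div_iff₀ hDpos] at this
  have heC : ∀ k, |e k| ≤ Cb := by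
    intro k
    obtain ⟨w, hw, hwe⟩ := (hSd k).2.2.2
    rw [← hwe]
    exact hCb w hw
  -- closeness of F∘f to f
  have hFup : ∀ z ∈ B, Finf M e (f z) ≤ f z + η := by
    intro z hz
    unfold Finf
    have : ∑' j, M j * |f z - e j| ≤ ∑' j, M j * D := by
      apply (Finf_summable hM0 hMsummable heC (f z)).tsum_le_tsum _ (hMsummable.mul_right D)
      intro j
      apply mul_le_mul_of_nonneg_left _ (hM0 j)
      obtain ⟨w, hw, hwe⟩ := (hSd j).2.2.2
      rw [← hwe]
      exact hosc z hz w hw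
    rw [tsum_mul_right] at this
    linarith
  have hFlow : ∀ z, f z ≤ Finf M e (f z) := by
    intro z
    unfold Finf
    have : 0 ≤ ∑' j, M j * |f z - e j| :=
      tsum_nonneg fun j => mul_nonneg (hM0 j) (abs_nonneg _)
    linarith
  have hFcont : Continuous (Finf M e) := Finf_cont hM0 hMsummable heC
  -- the maximum of v
  have hvc : ContinuousOn (fun z => Finf M e (f z) - φ2 z) B :=
    (hFcont.comp_continuousOn (hfc.mono hBG)).sub hφ2SM.1.continuousOn
  obtain ⟨zs, hzsB, hzsmax⟩ := hBcomp.exists_isMaxOn ⟨z1, hz1B⟩ hvc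
  have hzsmax' : ∀ z ∈ B, Finf M e (f z) - φ2 z ≤ Finf M e (f zs) - φ2 zs :=
    fun z hz => hzsmax hz
  have hzsball : ‖zs - z1‖ < ρ' / 2 := by
    by_contra hnot
    push Not at hnot
    have h1 := hzsmax' z1 hz1B
    have h2 := hFlow z1
    have h3 := hFup zs hzsB
    have h4 := hmax2 zs hzsB
    have h5 : (κ / 2) * (ρ' / 2) ^ 2 ≤ (κ / 2) * ‖zs - z1‖ ^ 2 := by
      apply mul_le_mul_of_nonneg_left _ (by linarith)
      apply pow_le_pow_left₀ (by linarith) hnot
    have h6 : (κ / 2) * (ρ' / 2) ^ 2 = 2 * η := by rw [hη]; ring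
    linarith
  have hcbB : ∀ r ≤ ρ' / 2, closedBall zs r ⊆ B := by
    intro r hr w hw
    rw [hB, mem_closedBall, dist_eq_norm]
    rw [mem_closedBall, dist_eq_norm] at hw
    calc ‖w - z1‖ = ‖(w - zs) + (zs - z1)‖ := by congr 1; ring
      _ ≤ ‖w - zs‖ + ‖zs - z1‖ := norm_add_le _ _
      _ ≤ ρ' := by linarith
  -- averages of the finite perturbations are below those of the infinite one
  have hup : ∀ r > 0, closedBall zs r ⊆ B → ∀ S : Finset ι,
      Real.circleAverage (fun w => Fpert S M e (f w)) zs r ≤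
      Real.circleAverage (fun w => Finf M e (f w)) zs r := by
    intro r hr hrB S
    have hfS : ContinuousOn f (sphere zs r) :=
      hfc.mono ((sphere_subset_closedBall.trans hrB).trans hBG)
    apply Real.circleAverage_mono
    · exact ContinuousOn.circleIntegrable hr.le ((Fpert_cont S M e).comp_continuousOn hfS)
    · exact ContinuousOn.circleIntegrable hr.le (hFcont.comp_continuousOn hfS)
    · intro w _
      exact Fpert_le_Finf hM0 hMsummable heC S (f w)
  -- sub-mean value inequality at some radius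
  obtain ⟨r, hr, hrB, hsm⟩ : ∃ r > 0, closedBall zs r ⊆ B ∧
      Finf M e (f zs) ≤ Real.circleAverage (fun w => Finf M e (f w)) zs r := by
    by_cases hzG' : zs ∈ G'
    · obtain ⟨t, ht, htG⟩ := Metric.isOpen_iff.1 hG' zs hzG'
      set r : ℝ := min (t / 2) (ρ' / 2) with hr
      have hrpos : 0 < r := lt_min (by linarith) (by linarith)
      have hrB := hcbB r (min_le_right _ _)
      have hrG' : closedBall zs r ⊆ G' := by
        refine (closedBall_subset_ball ?_).trans htG
        have : r ≤ t / 2 := min_le_left _ _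
        linarith
      refine ⟨r, hrpos, hrB, ?_⟩
      apply Finf_le_of_forall hM0 hMsummable heC ∅
      intro S _
      refine le_trans ?_ (hup r hrpos hrB S)
      apply Fpert_submean_of_submean S M e (fun j _ => hM0 j) (hM1S S) hrpos
      · exact hfc.mono ((sphere_subset_closedBall.trans hrB).trans hBG)
      · exact hS zs r hrpos hrG'
    · obtain ⟨k, hfk, hmod⟩ := hScov zs ⟨⟨hBG hzsB, hzG'⟩, hzsB⟩
      obtain ⟨hδ0, hδd, hmk0, -⟩ := hSd k
      set r : ℝ := N * δ k with hr
      have hrpos : 0 < r := by positivity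
      have hrle : r ≤ ρ' / 2 := by
        rw [hr]
        have : δ k * (2 * N) ≤ ρ' := by
          rw [lt_div_iff₀ (by positivity)] at hδd
          exact hδd.le
        linarith
      have hrB := hcbB r hrle
      refine ⟨r, hrpos, hrB, ?_⟩
      have hTaylor : ∀ w ∈ sphere zs r, |f w - f zs - (a zs * (w - zs)).re| ≤ m k * r := by
        intro w hw
        have h1 := hmod w (hrB (sphere_subset_closedBall hw)) (mem_sphere_iff_norm.1 hw)
        rw [clm_eq_re (fderiv ℝ f zs) (w - zs)] at h1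
        exact h1
      apply Finf_le_of_forall hM0 hMsummable heC {k}
      intro S hkS
      refine le_trans ?_ (hup r hrpos hrB S)
      have hk : k ∈ S := hkS (Finset.mem_singleton_self k)
      apply Fpert_submean_of_cover S M e (fun j _ => hM0 j) (hM1S S) hrpos
        (hfc.mono ((sphere_subset_closedBall.trans hrB).trans hBG)) (by positivity) hTaylor hk hfk
      · have h4 := hNa zs hzsB
        rw [hr]
        nlinarith
      · simp only [hM, hr]
        apply le_of_eq
        ring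
  -- final contradiction
  have hfi : CircleIntegrable (fun w => Finf M e (f w)) zs r := by
    apply ContinuousOn.circleIntegrable hr.le
    exact hFcont.comp_continuousOn
      (hfc.mono ((sphere_subset_closedBall.trans hrB).trans hBG))
  have h1 : Real.circleAverage (fun w => Finf M e (f w) - φ2 w) zs r ≤
      Finf M e (f zs) - φ2 zs := by
    apply Real.circleAverage_mono_on_of_le_circle
    · exact hfi.sub (circInt_of_cont hφ2SM.1 _ _)
    · intro w hw
      rw [abs_of_pos hr] at hw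
      exact hzsmax' w (hrB (sphere_subset_closedBall hw))
  rw [Real.circleAverage_fun_sub hfi (circInt_of_cont hφ2SM.1 _ _), hφ2SM.2] at h1
  have h2 : 0 < κ / 2 * r ^ 2 := by positivity
  linarith

end Pool.Agent.Y257.KR
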