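import Pool.Agent.Y257.KR.Piece

open MeasureTheory Metric Set Filter Topology
open scoped ENNReal
open Pool.Agent.Helper119.Kral

namespace Pool.Agent.Y257.KR

/-- A gauge: continuous, non-decreasing and nonnegative on `[0,∞)`. -/
def Gauge (ω : ℝ → ℝ) : Prop :=
  ContinuousOn ω (Ici 0) ∧ MonotoneOn ω (Ici 0) ∧ 0 ≤ ω 0

/-- The first-order Taylor remainder of `f` at `z`, evaluated at `w`. -/
noncomputable def remainder (f : ℂ → ℝ) (z w : ℂ) : ℝ :=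
  f w - f z - fderiv ℝ f z (w - z)

/-- `f(w) = f(z) + ∇f(z)(w - z) + O(|w - z| ω(|w - z|))` as `w → z`. -/
def TaylorO (ω : ℝ → ℝ) (f : ℂ → ℝ) (z : ℂ) : Prop :=
  ∃ C b : ℝ, 0 < b ∧ ∀ w, ‖w - z‖ < b → |remainder f z w| ≤ C * (‖w - z‖ * ω ‖w - z‖)

/-- `f(w) = f(z) + ∇f(z)(w - z) + o(|w - z| ω(|w - z|))` as `w → z` in `G`, uniformly for
`z` in `S`. -/
def UnifTaylorLittleO (G : Set ℂ) (ω : ℝ → ℝ) (f : ℂ → ℝ) (S : Set ℂ) : Prop :=
  ∀ ε : ℝ, 0 < ε → ∃ b : ℝ, 0 < b ∧ ∀ z ∈ S, ∀ w ∈ G, ‖w - z‖ < b →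
    |remainder f z w| ≤ ε * (‖w - z‖ * ω ‖w - z‖)

/-- `A` is covered by countably many sets of finite Hausdorff `ω`-measure. -/
def SigmaFiniteOn (ω : ℝ → ℝ) (A : Set ℝ) : Prop :=
  ∃ B : ℕ → Set ℝ, A ⊆ ⋃ n, B n ∧ ∀ n, gaugeMeasure ω (B n) < ⊤

/-- The general theorem: countably many gauges, pointwise Taylor conditions. -/
theorem main_pointwise {G : Set ℂ} (hG : IsOpen G) {f : ℂ → ℝ} (hf : ContDiffOn ℝ 1 f G)
    {G' : Set ℂ} (hG' : IsOpen G') (hS : Subharmonic G' f)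
    {S : ℕ → Set ℂ} {ω : ℕ → ℝ → ℝ} (hω : ∀ j, Gauge (ω j))
    (hcover : ∀ z ∈ G \ G', fderiv ℝ f z ≠ 0 → z ∈ ⋃ j, S j)
    (hgood : ∀ j,
      ((∀ z ∈ S j, TaylorO (ω j) f z) ∧ gaugeMeasure (ω j) (f '' S j) = 0) ∨
      (UnifTaylorLittleO G (ω j) f (S j) ∧ SigmaFiniteOn (ω j) (f '' S j))) :
    Subharmonic G f := by
  set W : Set ℂ := {z ∈ G | fderiv ℝ f z ≠ 0} with hW
  have hWo : IsOpen W := isOpen_noncritical hG hf
  have hWG : W ⊆ G := fun z hz => hz.1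
  have hsub : ∀ (c : ℂ) (R : ℝ), 0 < R → closedBall c R ⊆ W → f c ≤ Real.circleAverage f c R := by
    apply submean_of_cov hWo hG' (hf.mono hWG) hS.2
    intro c r hr hcr N hN
    have hB : (closedBall c r).Nonempty := ⟨c, mem_closedBall_self hr.le⟩
    have h1 : ∀ j, Cov N f (closedBall c r) (S j) := by
      intro j
      obtain ⟨hωc, hωm, hω0⟩ := hω j
      rcases hgood j with ⟨hO, hnull⟩ | ⟨ho, hsf⟩
      · apply Cov_null hωc hωm hω0 hN hB _ hnull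
        intro z hz
        obtain ⟨C, b, hb, h⟩ := hO z hz.1
        exact ⟨C, b, hb, fun u _ huz => h u huz⟩
      · apply Cov_sigma hωc hωm hω0 hN hB _ hsf
        intro ε hε
        obtain ⟨b, hb, h⟩ := ho ε hε
        exact ⟨b, hb, fun z hz u hu huz => h z hz.1 u (hWG (hcr hu)) huz⟩
    exact (Cov.iUnion h1).mono (fun z hz => hcover z ⟨hWG hz.1, hz.2⟩ hz.1.2)
  apply subharmonic_of_noncritical hG hf
  intro z hz hne
  obtain ⟨e, he, hsube⟩ := Metric.isOpen_iff.1 hWo z ⟨hz, hne⟩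
  exact ⟨e, he, fun r hr hre => hsub z r hr ((closedBall_subset_ball hre).trans hsube)⟩

/-- The value set version of the null case. -/
theorem main_values_null {ω : ℝ → ℝ} (hω : Gauge ω) {E : Set ℝ}
    (hE : ∀ K : Set ℝ, IsCompact K → K ⊆ E → gaugeMeasure ω K = 0)
    {G : Set ℂ} (hG : IsOpen G) {f : ℂ → ℝ} (hf : ContDiffOn ℝ 1 f G)
    {G' : Set ℂ} (hG' : IsOpen G') (hS : Subharmonic G' f)
    (hmem : ∀ z ∈ G \ G', fderiv ℝ f z ≠ 0 → f z ∈ E ∧ TaylorO ω f z) :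
    Subharmonic G f := by
  set W : Set ℂ := {z ∈ G | fderiv ℝ f z ≠ 0} with hW
  have hWo : IsOpen W := isOpen_noncritical hG hf
  obtain ⟨F, hF1, hF2, hF3⟩ := exists_compact_cover hWo hG'
  apply main_pointwise hG hf hG' hS (S := F) (ω := fun _ => ω) (fun _ => hω)
  · intro z hz hne
    exact hF3 ⟨⟨hz.1, hne⟩, hz.2⟩
  · intro n
    refine Or.inl ⟨fun z hz => (hmem z ⟨(hF2 n hz).1.1, (hF2 n hz).2⟩ (hF2 n hz).1.2).2, ?_⟩
    apply hE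
    · exact (hF1 n).image_of_continuousOn (hf.continuousOn.mono (fun z hz => (hF2 n hz).1.1))
    · rintro _ ⟨z, hz, rfl⟩
      exact (hmem z ⟨(hF2 n hz).1.1, (hF2 n hz).2⟩ (hF2 n hz).1.2).1

/-- The value set version of the sigma-finite case. -/
theorem main_values_sigma {ω : ℝ → ℝ} (hω : Gauge ω) {E : Set ℝ}
    (hE : ∀ K : Set ℝ, IsCompact K → K ⊆ E → SigmaFiniteOn ω K)
    {G : Set ℂ} (hG : IsOpen G) {f : ℂ → ℝ} (hf : ContDiffOn ℝ 1 f G)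
    {G' : Set ℂ} (hG' : IsOpen G') (hS : Subharmonic G' f)
    (hmem : ∀ z ∈ G \ G', fderiv ℝ f z ≠ 0 → f z ∈ E)
    (ho : ∀ K : Set ℂ, IsCompact K → K ⊆ {z ∈ G \ G' | fderiv ℝ f z ≠ 0} →
      UnifTaylorLittleO G ω f K) :
    Subharmonic G f := by
  set W : Set ℂ := {z ∈ G | fderiv ℝ f z ≠ 0} with hW
  have hWo : IsOpen W := isOpen_noncritical hG hf
  obtain ⟨F, hF1, hF2, hF3⟩ := exists_compact_cover hWo hG'
  apply main_pointwise hG hf hG' hS (S := F) (ω := fun _ => ω) (fun _ => hω)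
  · intro z hz hne
    exact hF3 ⟨⟨hz.1, hne⟩, hz.2⟩
  · intro n
    refine Or.inr ⟨ho _ (hF1 n) (fun z hz => ⟨⟨(hF2 n hz).1.1, (hF2 n hz).2⟩, (hF2 n hz).1.2⟩), ?_⟩
    apply hE
    · exact (hF1 n).image_of_continuousOn (hf.continuousOn.mono (fun z hz => (hF2 n hz).1.1))
    · rintro _ ⟨z, hz, rfl⟩
      exact hmem z ⟨(hF2 n hz).1.1, (hF2 n hz).2⟩ (hF2 n hz).1.2

end Pool.Agent.Y257.KR
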