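import Pool.Agent.Y257.KR.Inf

open MeasureTheory Metric Set Filter Topology
open scoped ENNReal
open Pool.Agent.Helper119.Kral

namespace Pool.Agent.Y257.KR

lemma Cov.mono {N : ℕ} {f : ℂ → ℝ} {B S T : Set ℂ} (h : Cov N f B S) (hTS : T ⊆ S) :
    Cov N f B T := by
  intro d hd ζ hζ
  obtain ⟨ι, e, δ, m, h1, h2, h3⟩ := h d hd ζ hζ
  exact ⟨ι, e, δ, m, h1, h2, fun z hz => h3 z ⟨hTS hz.1, hz.2⟩⟩

lemma Cov.iUnion {N : ℕ} {f : ℂ → ℝ} {B : Set ℂ} {S : ℕ → Set ℂ} (h : ∀ j, Cov N f B (S j)) :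
    Cov N f B (⋃ j, S j) := by
  intro d hd ζ hζ
  obtain ⟨ε', hε'pos, cc, hε'sum, hcc⟩ := posSumOfEncodable hζ ℕ
  choose ι e δ m h1 h2 h3 using fun j => h j d hd (ε' j) (hε'pos j)
  refine ⟨(j : ℕ) × ι j, fun p => e p.1 p.2, fun p => δ p.1 p.2, fun p => m p.1 p.2,
    ?_, fun p => h2 p.1 p.2, ?_⟩
  · rw [ENNReal.tsum_sigma']
    calc ∑' j, ∑' k, ENNReal.ofReal (m j k) ≤ ∑' j, ENNReal.ofReal (ε' j) :=
          ENNReal.tsum_le_tsum h1
      _ = ENNReal.ofReal (∑' j, ε' j) := by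
          rw [ENNReal.ofReal_tsum_of_nonneg (fun n => (hε'pos n).le) hε'sum.summable]
      _ ≤ ENNReal.ofReal ζ := by
          rw [hε'sum.tsum_eq]
          exact ENNReal.ofReal_le_ofReal hcc
  · intro z hz
    obtain ⟨j, hj⟩ := mem_iUnion.1 hz.1
    obtain ⟨k, hk⟩ := h3 j z ⟨hj, hz.2⟩
    exact ⟨⟨j, k⟩, hk⟩

/-- One family of intervals, from one cover of a value set. -/
lemma piece {ω : ℝ → ℝ} (hωc : ContinuousOn ω (Ici 0)) (hωm : MonotoneOn ω (Ici 0))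
    (hω0 : 0 ≤ ω 0) {f : ℂ → ℝ} {B P : Set ℂ} {N : ℕ} (hN : 0 < N) {z0 : ℂ} (hz0 : z0 ∈ B)
    {c b d T ζ : ℝ} (hc : 0 ≤ c) (hb : 0 < b) (hd : 0 < d) (hζ : 0 < ζ)
    (hmod : ∀ z ∈ P ∩ B, ∀ u ∈ B, ‖u - z‖ < b →
      |f u - f z - fderiv ℝ f z (u - z)| ≤ c * (‖u - z‖ * ω ‖u - z‖))
    {A : Set ℝ} (hA : gaugeMeasure ω A < ENNReal.ofReal T) (hT : N * (c * T) ≤ ζ / 2)
    (hPA : f '' P ⊆ A) :
    ∃ (e δ m : ℕ × Fin N → ℝ), ∑' k, ENNReal.ofReal (m k) ≤ ENNReal.ofReal ζ ∧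
      (∀ k, 0 < δ k ∧ δ k < d ∧ 0 ≤ m k ∧ ∃ z ∈ B, f z = e k) ∧
      (∀ z ∈ P ∩ B, ∃ k, |f z - e k| ≤ δ k ∧
        ∀ w ∈ B, ‖w - z‖ = N * δ k →
          |f w - f z - fderiv ℝ f z (w - z)| ≤ m k * (N * δ k)) := by
  classical
  have hωnn : ∀ x, 0 ≤ x → 0 ≤ ω x := fun x hx => hω0.trans (hωm (mem_Ici.2 le_rfl) hx hx)
  have hNr : (0:ℝ) < N := by exact_mod_cast hN
  have hN1 : (1:ℝ) ≤ N := by exact_mod_cast hN
  have hbd : 0 < min b d := lt_min hb hd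
  obtain ⟨t, ht1, ht2, ht3⟩ := exists_cover_of_lt hA (half_pos hbd)
  have hζN : 0 < ζ / (2 * N) := by positivity
  obtain ⟨ε', hε'pos, cc, hε'sum, hcc⟩ := posSumOfEncodable hζN ℕ
  have ht : ∀ i, ediam (t i) ≠ ∞ := fun i =>
    ne_top_of_le_ne_top ENNReal.ofReal_ne_top (ht2 i)
  set D : ℕ → ℝ := fun i => (ediam (t i)).toReal with hD
  have hDnn : ∀ i, 0 ≤ D i := fun i => ENNReal.toReal_nonneg
  have hDb : ∀ i, D i < min b d := by
    intro i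
    have h1 := ENNReal.toReal_mono ENNReal.ofReal_ne_top (ht2 i)
    rw [ENNReal.toReal_ofReal (half_pos hbd).le] at h1
    have : D i ≤ min b d / 2 := h1
    linarith
  have hδex : ∀ i, ∃ δ : ℝ, D i < δ ∧ δ < min b d ∧ c * ω δ ≤ c * ω (D i) + ε' i := by
    intro i
    have h1 : ContinuousWithinAt (fun x => c * ω x) (Ici 0) (D i) :=
      (continuousOn_const.mul hωc) (D i) (hDnn i)
    have h2 : ContinuousWithinAt (fun x => c * ω x) (Ioi (D i)) (D i) :=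
      h1.mono (fun x hx => mem_Ici.2 ((hDnn i).trans (le_of_lt hx)))
    have h3 : ∀ᶠ x in 𝓝[>] (D i), c * ω x < c * ω (D i) + ε' i :=
      h2.eventually (gt_mem_nhds (by linarith [hε'pos i]))
    have h4 : ∀ᶠ x in 𝓝[>] (D i), x < min b d := by
      apply eventually_nhdsWithin_of_eventually_nhds
      exact gt_mem_nhds (hDb i)
    have h5 : ∀ᶠ x in 𝓝[>] (D i), D i < x := self_mem_nhdsWithin
    obtain ⟨x, h6, h7, h8⟩ := (h3.and (h4.and h5)).exists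
    exact ⟨x, h8, h7, h6.le⟩
  choose δ' hδD hδb hδω using hδex
  have hδ'pos : ∀ i, 0 < δ' i := fun i => (hDnn i).trans_lt (hδD i)
  -- the pieces
  set Q : ℕ × Fin N → Set ℝ := fun k => {y | y ∈ t k.1 ∧ (∃ z ∈ B, f z = y) ∧
    (k.2 : ℝ) * (δ' k.1 / N) ≤ y - sInf (t k.1) ∧
    y - sInf (t k.1) < ((k.2 : ℝ) + 1) * (δ' k.1 / N)} with hQ
  set e : ℕ × Fin N → ℝ := fun k => if h : (Q k).Nonempty then h.some else f z0 with he
  set m : ℕ × Fin N → ℝ := fun k => if (Q k).Nonempty then c * ω (δ' k.1) else 0 with hm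
  have hdiam : ∀ i, ∀ x ∈ t i, ∀ y ∈ t i, |x - y| ≤ D i := by
    intro i x hx y hy
    have h1 := edist_le_ediam_of_mem hx hy
    have h2 := ENNReal.toReal_mono (ht i) h1
    rw [edist_dist, ENNReal.toReal_ofReal dist_nonneg, Real.dist_eq] at h2
    exact h2
  refine ⟨e, fun k => δ' k.1 / N, m, ?_, ?_, ?_⟩
  · -- the sum
    set g : ℕ → ℝ≥0∞ := fun n => ⨆ _ : (t n).Nonempty, ENNReal.ofReal (ω (ediam (t n)).toReal)
      with hg
    have hterm : ∀ k : ℕ × Fin N, ENNReal.ofReal (m k) ≤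
        ENNReal.ofReal c * g k.1 + ENNReal.ofReal (ε' k.1) := by
      intro k
      by_cases hk : (Q k).Nonempty
      · have hne : (t k.1).Nonempty := ⟨hk.some, hk.some_mem.1⟩
        have hgk : g k.1 = ENNReal.ofReal (ω (D k.1)) := by
          simp only [hg, hD, hne, iSup_pos]
        simp only [hm, hk, if_true]
        rw [hgk, ← ENNReal.ofReal_mul hc, ← ENNReal.ofReal_add
          (mul_nonneg hc (hωnn _ (hDnn _))) (hε'pos _).le]
        exact ENNReal.ofReal_le_ofReal (hδω k.1)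
      · simp only [hm, hk, if_false, ENNReal.ofReal_zero]
        exact zero_le
    calc ∑' k, ENNReal.ofReal (m k)
        ≤ ∑' k : ℕ × Fin N, (ENNReal.ofReal c * g k.1 + ENNReal.ofReal (ε' k.1)) :=
          ENNReal.tsum_le_tsum hterm
      _ = ∑' n : ℕ, ∑' _ : Fin N, (ENNReal.ofReal c * g n + ENNReal.ofReal (ε' n)) := by
          rw [ENNReal.tsum_prod']
      _ = ∑' n : ℕ, (N : ℝ≥0∞) * (ENNReal.ofReal c * g n + ENNReal.ofReal (ε' n)) := by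
          congr 1
          ext n
          rw [tsum_fintype, Finset.sum_const, Finset.card_univ, Fintype.card_fin, nsmul_eq_mul]
      _ = (N : ℝ≥0∞) * (ENNReal.ofReal c * ∑' n, g n + ∑' n, ENNReal.ofReal (ε' n)) := by
          rw [ENNReal.tsum_mul_left, ENNReal.tsum_add, ENNReal.tsum_mul_left]
      _ ≤ (N : ℝ≥0∞) * (ENNReal.ofReal c * ENNReal.ofReal T + ENNReal.ofReal (ζ / (2 * N))) := by
          gcongr
          rw [← ENNReal.ofReal_tsum_of_nonneg (fun n => (hε'pos n).le) hε'sum.summable,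
            hε'sum.tsum_eq]
          exact ENNReal.ofReal_le_ofReal hcc
      _ = ENNReal.ofReal (N * (c * T)) + ENNReal.ofReal (N * (ζ / (2 * N))) := by
          rw [mul_add, ← ENNReal.ofReal_mul hc, ENNReal.ofReal_mul hNr.le,
            ENNReal.ofReal_mul hNr.le, ENNReal.ofReal_natCast]
      _ ≤ ENNReal.ofReal (ζ / 2) + ENNReal.ofReal (ζ / 2) := by
          have h1 : (N:ℝ) * (ζ / (2 * N)) = ζ / 2 := by field_simp
          rw [h1]
          gcongr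
      _ = ENNReal.ofReal ζ := by
          rw [← ENNReal.ofReal_add (half_pos hζ).le (half_pos hζ).le]
          congr 1
          ring
  · intro k
    refine ⟨div_pos (hδ'pos _) hNr, ?_, ?_, ?_⟩
    · have h1 : δ' k.1 / N ≤ δ' k.1 := div_le_self (hδ'pos _).le hN1
      exact h1.trans_lt ((hδb k.1).trans_le (min_le_right _ _))
    · simp only [hm]
      split_ifs
      · exact mul_nonneg hc (hωnn _ (hδ'pos _).le)
      · exact le_rfl
    · by_cases hk : (Q k).Nonempty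
      · simp only [he, hk, dif_pos]
        exact hk.some_mem.2.1
      · simp only [he, hk, dif_neg, not_false_eq_true]
        exact ⟨z0, hz0, rfl⟩
  · intro z hz
    have hfz : f z ∈ ⋃ n, t n := ht1 (hPA ⟨z, hz.1, rfl⟩)
    obtain ⟨n, hn⟩ := mem_iUnion.1 hfz
    set s : ℝ := δ' n / N with hs
    have hs0 : 0 < s := div_pos (hδ'pos n) hNr
    have hlow : ∀ x ∈ t n, f z - D n ≤ x := by
      intro x hx
      have := (abs_le.1 (hdiam n (f z) hn x hx)).2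
      linarith
    have hbdd : BddBelow (t n) := ⟨f z - D n, fun x hx => hlow x hx⟩
    have h1 : sInf (t n) ≤ f z := csInf_le hbdd hn
    have h2 : f z - D n ≤ sInf (t n) := le_csInf ⟨f z, hn⟩ hlow
    set q : ℝ := (f z - sInf (t n)) / s with hq
    have hq0 : 0 ≤ q := div_nonneg (by linarith) hs0.le
    have hqN : q < N := by
      rw [hq, div_lt_iff₀ hs0, hs, mul_div_cancel₀ _ hNr.ne']
      linarith [hδD n]
    have hfl : ⌊q⌋₊ < N := (Nat.floor_lt hq0).2 hqN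
    have hqs : q * s = f z - sInf (t n) := div_mul_cancel₀ _ hs0.ne'
    have hmem : f z ∈ Q (n, ⟨⌊q⌋₊, hfl⟩) := by
      refine ⟨hn, ⟨z, hz.2, rfl⟩, ?_, ?_⟩
      · have := Nat.floor_le hq0
        show (⌊q⌋₊ : ℝ) * s ≤ f z - sInf (t n)
        rw [← hqs]
        exact mul_le_mul_of_nonneg_right this hs0.le
      · have := Nat.lt_floor_add_one q
        show f z - sInf (t n) < ((⌊q⌋₊ : ℝ) + 1) * s
        rw [← hqs]
        exact mul_lt_mul_of_pos_right this hs0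
    have hne : (Q (n, ⟨⌊q⌋₊, hfl⟩)).Nonempty := ⟨f z, hmem⟩
    refine ⟨(n, ⟨⌊q⌋₊, hfl⟩), ?_, ?_⟩
    · have he1 : e (n, ⟨⌊q⌋₊, hfl⟩) ∈ Q (n, ⟨⌊q⌋₊, hfl⟩) := by
        simp only [he, hne, dif_pos]
        exact hne.some_mem
      have h3 := he1.2.2.1
      have h4 := he1.2.2.2
      have h5 := hmem.2.2.1
      have h6 := hmem.2.2.2
      dsimp only at h3 h4 h5 h6 ⊢
      rw [abs_le]
      constructor <;> linarith
    · intro u hu huz
      dsimp only at huz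
      rw [mul_div_cancel₀ _ hNr.ne'] at huz
      simp only [hm, hne, if_true]
      have hub : ‖u - z‖ < b := huz.le.trans_lt ((hδb n).trans_le (min_le_left _ _))
      refine (hmod z hz u hu hub).trans ?_
      rw [mul_div_cancel₀ _ hNr.ne', huz]
      apply le_of_eq
      ring

/-- Null case: pointwise `O(ω)`. -/
lemma Cov_null {ω : ℝ → ℝ} (hωc : ContinuousOn ω (Ici 0)) (hωm : MonotoneOn ω (Ici 0))
    (hω0 : 0 ≤ ω 0) {f : ℂ → ℝ} {B S : Set ℂ} {N : ℕ} (hN : 0 < N) (hB : B.Nonempty)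
    (hmod : ∀ z ∈ S ∩ B, ∃ C : ℝ, ∃ b : ℝ, 0 < b ∧ ∀ u ∈ B, ‖u - z‖ < b →
      |f u - f z - fderiv ℝ f z (u - z)| ≤ C * (‖u - z‖ * ω ‖u - z‖))
    (hA : gaugeMeasure ω (f '' S) = 0) : Cov N f B S := by
  have hωnn : ∀ x, 0 ≤ x → 0 ≤ ω x := fun x hx => hω0.trans (hωm (mem_Ici.2 le_rfl) hx hx)
  have hNr : (0:ℝ) < N := by exact_mod_cast hN
  obtain ⟨z0, hz0⟩ := hB
  set P : ℕ → Set ℂ := fun n => {z | z ∈ S ∧ ∀ u ∈ B, ‖u - z‖ < 1 / ((n:ℝ) + 1) →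
    |f u - f z - fderiv ℝ f z (u - z)| ≤ ((n:ℝ) + 1) * (‖u - z‖ * ω ‖u - z‖)} with hP
  have h1 : ∀ n, Cov N f B (P n) := by
    intro n d hd ζ hζ
    have hn1 : (0:ℝ) < (n:ℝ) + 1 := by positivity
    have hT : 0 < ζ / (2 * N * ((n:ℝ) + 1)) := by positivity
    obtain ⟨e, δ, m, h1, h2, h3⟩ := piece hωc hωm hω0 hN hz0 (P := P n) (f := f) (B := B)
      (c := (n:ℝ) + 1) (b := 1 / ((n:ℝ) + 1)) (d := d) (T := ζ / (2 * N * ((n:ℝ) + 1))) (ζ := ζ)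
      (A := f '' S) hn1.le (by positivity) hd hζ (fun z hz u hu huz => hz.1.2 u hu huz)
      (by rw [hA]; exact ENNReal.ofReal_pos.2 hT)
      (by apply le_of_eq; field_simp)
      (image_mono (fun z hz => hz.1))
    exact ⟨_, e, δ, m, h1, h2, h3⟩
  have h2 := Cov.iUnion h1
  intro d hd ζ hζ
  obtain ⟨ι, e, δ, m, h3, h4, h5⟩ := h2 d hd ζ hζ
  refine ⟨ι, e, δ, m, h3, h4, fun z hz => h5 z ⟨?_, hz.2⟩⟩
  obtain ⟨C, b, hb, hCb⟩ := hmod z hz
  obtain ⟨n, hn⟩ := exists_nat_ge (max C (1 / b))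
  refine mem_iUnion.2 ⟨n, hz.1, fun u hu huz => ?_⟩
  have hn1 : (0:ℝ) < (n:ℝ) + 1 := by positivity
  have hnb : 1 / ((n:ℝ) + 1) ≤ b := by
    rw [div_le_iff₀ hn1]
    have h6 : 1 / b ≤ n := (le_max_right _ _).trans hn
    rw [div_le_iff₀ hb] at h6
    nlinarith
  refine (hCb u hu (huz.trans_le hnb)).trans ?_
  apply mul_le_mul_of_nonneg_right _ (mul_nonneg (norm_nonneg _) (hωnn _ (norm_nonneg _)))
  have h7 : C ≤ n := (le_max_left _ _).trans hn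
  linarith

/-- Sigma-finite case: `o(ω)`, uniform on the set. -/
lemma Cov_sigma {ω : ℝ → ℝ} (hωc : ContinuousOn ω (Ici 0)) (hωm : MonotoneOn ω (Ici 0))
    (hω0 : 0 ≤ ω 0) {f : ℂ → ℝ} {B S : Set ℂ} {N : ℕ} (hN : 0 < N) (hB : B.Nonempty)
    (hmod : ∀ ε : ℝ, 0 < ε → ∃ b : ℝ, 0 < b ∧ ∀ z ∈ S ∩ B, ∀ u ∈ B, ‖u - z‖ < b →
      |f u - f z - fderiv ℝ f z (u - z)| ≤ ε * (‖u - z‖ * ω ‖u - z‖))
    (hA : ∃ A : ℕ → Set ℝ, f '' S ⊆ ⋃ n, A n ∧ ∀ n, gaugeMeasure ω (A n) < ⊤) :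
    Cov N f B S := by
  have hNr : (0:ℝ) < N := by exact_mod_cast hN
  obtain ⟨z0, hz0⟩ := hB
  obtain ⟨A, hA1, hA2⟩ := hA
  have h1 : ∀ n, Cov N f B (S ∩ f ⁻¹' (A n)) := by
    intro n d hd ζ hζ
    set T : ℝ := (gaugeMeasure ω (A n)).toReal + 1 with hT
    have hT0 : 0 < T := by
      have : 0 ≤ (gaugeMeasure ω (A n)).toReal := ENNReal.toReal_nonneg
      linarith
    have hc : 0 < ζ / (2 * N * T) := by positivity
    obtain ⟨b, hb, hmb⟩ := hmod _ hc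
    obtain ⟨e, δ, m, h1, h2, h3⟩ := piece hωc hωm hω0 hN hz0 (P := S ∩ f ⁻¹' (A n)) (f := f)
      (B := B) (c := ζ / (2 * N * T)) (b := b) (d := d) (T := T) (ζ := ζ)
      (A := A n) hc.le hb hd hζ (fun z hz u hu huz => hmb z ⟨hz.1.1, hz.2⟩ u hu huz)
      (by
        rw [ENNReal.lt_ofReal_iff_toReal_lt (hA2 n).ne]
        linarith)
      (by apply le_of_eq; field_simp)
      (by rintro _ ⟨z, hz, rfl⟩; exact hz.2)
    exact ⟨_, e, δ, m, h1, h2, h3⟩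
  refine (Cov.iUnion h1).mono ?_
  intro z hz
  obtain ⟨n, hn⟩ := mem_iUnion.1 (hA1 ⟨z, hz, rfl⟩)
  exact mem_iUnion.2 ⟨n, hz, hn⟩

end Pool.Agent.Y257.KR
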