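import Pool.Agent.Y257.KR.Final

open MeasureTheory Metric Set Filter Topology
open scoped ENNReal
open Pool.Agent.Helper119.Kral

namespace Pool.Agent.Y257.KR

/-- pieces of the noncritical set -/
def Piece (G : Set ℂ) (f : ℂ → ℝ) (A : Set ℂ) (n l : ℕ) : Set (ℂ × ℂ) :=
  (A ×ˢ (closedBall (0:ℂ) ((n:ℝ) + 1) \ ball (0:ℂ) (1 / ((n:ℝ) + 1)))) ∩
    ⋂ w ∈ G, ({q : ℂ × ℂ | 1 / ((l:ℝ) + 1) ≤ ‖w - q.1‖} ∪
      ((A ×ˢ (closedBall (0:ℂ) ((n:ℝ) + 1) \ ball (0:ℂ) (1 / ((n:ℝ) + 1)))) ∩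
        (fun q : ℂ × ℂ => |f w - f q.1 - (q.2 * (w - q.1)).re| -
          (1 / (4 * ((n:ℝ) + 1))) * ‖w - q.1‖) ⁻¹' (Iic 0)))

lemma Piece_compact {G : Set ℂ} {f : ℂ → ℝ} {A : Set ℂ} (hA : IsCompact A)
    (hf : ContinuousOn f A) (n l : ℕ) : IsCompact (Piece G f A n l) := by
  have hK : IsCompact (closedBall (0:ℂ) ((n:ℝ) + 1) \ ball (0:ℂ) (1 / ((n:ℝ) + 1))) :=
    (isCompact_closedBall _ _).diff isOpen_ball
  have hAK := hA.prod hK
  refine hAK.of_isClosed_subset ?_ inter_subset_left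
  apply hAK.isClosed.inter
  apply isClosed_biInter
  intro w _
  apply IsClosed.union
  · exact isClosed_le continuous_const (by fun_prop)
  · apply ContinuousOn.preimage_isClosed_of_isClosed _ hAK.isClosed isClosed_Iic
    have h1 : ContinuousOn (fun q : ℂ × ℂ => f q.1)
        (A ×ˢ (closedBall (0:ℂ) ((n:ℝ) + 1) \ ball (0:ℂ) (1 / ((n:ℝ) + 1)))) :=
      hf.comp continuousOn_fst (fun q hq => hq.1)
    have h2 : Continuous (fun q : ℂ × ℂ => (q.2 * (w - q.1)).re) := by fun_prop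
    have h3 : Continuous (fun q : ℂ × ℂ => (1 / (4 * ((n:ℝ) + 1))) * ‖w - q.1‖) := by fun_prop
    exact (((continuousOn_const.sub h1).sub h2.continuousOn).abs).sub h3.continuousOn

/-- For a function which is continuous on `G` and differentiable on `G \ G'`, the noncritical points
of `G \ G'` form a countable union of compact sets. -/
lemma exists_compact_cover_noncritical {G G' : Set ℂ} (hG : IsOpen G) (hG' : IsOpen G')
    {f : ℂ → ℝ} (hfc : ContinuousOn f G) (hdiff : ∀ z ∈ G \ G', DifferentiableAt ℝ f z) :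
    ∃ F : ℕ → Set ℂ, (∀ n, IsCompact (F n)) ∧
      (∀ n, F n ⊆ {z ∈ G \ G' | fderiv ℝ f z ≠ 0}) ∧
      {z ∈ G \ G' | fderiv ℝ f z ≠ 0} ⊆ ⋃ n, F n := by
  obtain ⟨A, hA1, hA2, hA3⟩ := exists_compact_cover hG hG'
  refine ⟨fun m => Prod.fst '' Piece G f (A (Nat.unpair m).1) (Nat.unpair (Nat.unpair m).2).1
    (Nat.unpair (Nat.unpair m).2).2, fun m => ?_, fun m => ?_, ?_⟩
  · exact (Piece_compact (hA1 _) (hfc.mono (fun z hz => (hA2 _ hz).1)) _ _).image continuous_fst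
  · rintro _ ⟨⟨z, v⟩, ⟨⟨hzA, hv1, hv2⟩, hq⟩, rfl⟩
    set k := (Nat.unpair m).1
    set n := (Nat.unpair (Nat.unpair m).2).1
    set l := (Nat.unpair (Nat.unpair m).2).2
    have hz := hA2 _ hzA
    refine ⟨hz, fun h0 => ?_⟩
    dsimp only at hzA hv1 hv2 hz h0
    have hn : (0:ℝ) < (n:ℝ) + 1 := by positivity
    have hl : (0:ℝ) < (l:ℝ) + 1 := by positivity
    have hv : 1 / ((n:ℝ) + 1) ≤ ‖v‖ := by
      rw [mem_ball_zero_iff, not_lt] at hv2
      exact hv2
    have hvpos : 0 < ‖v‖ := lt_of_lt_of_le (by positivity) hv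
    have hd : HasFDerivAt f (0 : ℂ →L[ℝ] ℝ) z := by
      have := (hdiff z hz).hasFDerivAt
      rwa [h0] at this
    rw [hasFDerivAt_iff_isLittleO] at hd
    have hd1 := hd.def (c := 1 / (4 * ((n:ℝ) + 1))) (by positivity)
    have hGn : ∀ᶠ w in 𝓝 z, w ∈ G := hG.mem_nhds hz.1
    obtain ⟨e1, he1, hd2⟩ := Metric.eventually_nhds_iff.1 (hd1.and hGn)
    set t : ℝ := min (e1 / 2) (1 / (2 * ((l:ℝ) + 1))) / ‖v‖ with ht
    have htpos : 0 < t := by positivity
    have htv : t * ‖v‖ = min (e1 / 2) (1 / (2 * ((l:ℝ) + 1))) := by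
      rw [ht]; field_simp
    set w : ℂ := z + t * (starRingEnd ℂ) v with hw
    have hwz : w - z = t * (starRingEnd ℂ) v := by rw [hw]; ring
    have hwn : ‖w - z‖ = t * ‖v‖ := by
      rw [hwz, norm_mul, RCLike.norm_conj, Complex.norm_real, Real.norm_eq_abs, abs_of_pos htpos]
    have hw1 : ‖w - z‖ < e1 := by
      rw [hwn, htv]
      exact (min_le_left _ _).trans_lt (by linarith)
    have hw2 : ‖w - z‖ < 1 / ((l:ℝ) + 1) := by
      rw [hwn, htv]
      refine (min_le_right _ _).trans_lt ?_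
      rw [div_lt_div_iff₀ (by positivity) hl]
      linarith
    obtain ⟨h1, hwG⟩ := hd2 (y := w) (by rw [dist_eq_norm]; exact hw1)
    simp only [ContinuousLinearMap.zero_apply, sub_zero, Real.norm_eq_abs] at h1
    have h2 := mem_iInter₂.1 hq w hwG
    rcases h2 with h2 | h2
    · simp only [mem_setOf_eq] at h2
      linarith
    · have h3 := h2.2
      simp only [mem_preimage, mem_Iic] at h3
      have h4 : (v * (w - z)).re = t * ‖v‖ ^ 2 := by
        rw [hwz]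
        have : v * (t * (starRingEnd ℂ) v) = ((t * ‖v‖ ^ 2 : ℝ) : ℂ) := by
          rw [mul_left_comm, Complex.mul_conj, Complex.normSq_eq_norm_sq]
          push_cast
          ring
        rw [this, Complex.ofReal_re]
      rw [h4, hwn] at h3
      rw [hwn] at h1
      have h5 : t * ‖v‖ ^ 2 ≤ |f w - f z| + |f w - f z - t * ‖v‖ ^ 2| := by
        have h6 := le_abs_self (f w - f z)
        have h7 := neg_abs_le (f w - f z - t * ‖v‖ ^ 2)
        linarith
      have h8 : t * ‖v‖ ^ 2 ≤ 2 * (1 / (4 * ((n:ℝ) + 1)) * (t * ‖v‖)) := by linarith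
      have h9 : 1 / (4 * ((n:ℝ) + 1)) = (1 / ((n:ℝ) + 1)) / 4 := by field_simp
      rw [h9] at h8
      have h10 : 0 < t * ‖v‖ := by positivity
      have h11 : 0 < 1 / ((n:ℝ) + 1) := by positivity
      have h12 : ‖v‖ * (t * ‖v‖) ≤ (1 / ((n:ℝ) + 1)) / 2 * (t * ‖v‖) := by nlinarith
      have h13 := le_of_mul_le_mul_right h12 h10
      linarith
  · rintro z ⟨hz, hne⟩
    obtain ⟨k, hk⟩ := mem_iUnion.1 (hA3 hz)
    have hg : 0 < ‖grad f z‖ := norm_pos_iff.2 (grad_ne_zero hne)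
    obtain ⟨n, hn⟩ := exists_nat_ge (max (1 / ‖grad f z‖) ‖grad f z‖)
    have hn1 : (0:ℝ) < (n:ℝ) + 1 := by positivity
    have hn2 : ‖grad f z‖ ≤ (n:ℝ) + 1 := by
      have := (le_max_right _ _).trans hn
      linarith
    have hn3 : 1 / ((n:ℝ) + 1) ≤ ‖grad f z‖ := by
      have h1 := (le_max_left _ _).trans hn
      rw [div_le_iff₀ hg] at h1
      rw [div_le_iff₀ hn1]
      nlinarith
    have hd := (hdiff z hz).hasFDerivAt
    rw [hasFDerivAt_iff_isLittleO] at hd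
    have hd1 := hd.def (c := 1 / (4 * ((n:ℝ) + 1))) (by positivity)
    obtain ⟨e1, he1, hd2⟩ := Metric.eventually_nhds_iff.1 hd1
    obtain ⟨l, hl⟩ := exists_nat_ge (1 / e1)
    have hl1 : (0:ℝ) < (l:ℝ) + 1 := by positivity
    have hl2 : 1 / ((l:ℝ) + 1) ≤ e1 := by
      rw [div_le_iff₀ he1] at hl
      rw [div_le_iff₀ hl1]
      nlinarith
    refine mem_iUnion.2 ⟨Nat.pair k (Nat.pair n l), ?_⟩
    simp only [Nat.unpair_pair]
    refine ⟨(z, grad f z), ⟨⟨hk, ?_, ?_⟩, ?_⟩, rfl⟩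
    · rw [mem_closedBall_zero_iff]; exact hn2
    · rw [mem_ball_zero_iff, not_lt]; exact hn3
    · rw [mem_iInter₂]
      intro w _
      by_cases hw : 1 / ((l:ℝ) + 1) ≤ ‖w - z‖
      · exact Or.inl hw
      · push Not at hw
        refine Or.inr ⟨⟨hk, ?_, ?_⟩, ?_⟩
        · rw [mem_closedBall_zero_iff]; exact hn2
        · rw [mem_ball_zero_iff, not_lt]; exact hn3
        · have h1 := hd2 (y := w) (by rw [dist_eq_norm]; linarith)
          rw [Real.norm_eq_abs, fderiv_apply_eq_grad] at h1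
          simp only [mem_preimage, mem_Iic]
          linarith

/-- The value set version of the null case, for continuous functions. -/
theorem gen_values_null {ω : ℝ → ℝ} (hω : Gauge ω) {E : Set ℝ}
    (hE : ∀ K : Set ℝ, IsCompact K → K ⊆ E → gaugeMeasure ω K = 0)
    {G : Set ℂ} (hG : IsOpen G) {f : ℂ → ℝ} (hf : ContinuousOn f G)
    {G' : Set ℂ} (hG' : IsOpen G') (hdiff : ∀ z ∈ G \ G', DifferentiableAt ℝ f z)
    (hS : Subharmonic G' f)
    (hmem : ∀ z ∈ G \ G', fderiv ℝ f z ≠ 0 → f z ∈ E ∧ TaylorO ω f z) :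
    Subharmonic G f := by
  obtain ⟨F, hF1, hF2, hF3⟩ := exists_compact_cover_noncritical hG hG' hf hdiff
  apply general_pointwise hf hG' hdiff hS (S := F) (ω := fun _ => ω) (fun _ => hω)
  · intro z hz hne
    exact hF3 ⟨hz, hne⟩
  · intro n
    refine Or.inl ⟨fun z hz => (hmem z (hF2 n hz).1 (hF2 n hz).2).2, ?_⟩
    apply hE
    · exact (hF1 n).image_of_continuousOn (hf.mono (fun z hz => (hF2 n hz).1.1))
    · rintro _ ⟨z, hz, rfl⟩
      exact (hmem z (hF2 n hz).1 (hF2 n hz).2).1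

/-- The value set version of the sigma-finite case, for continuous functions. -/
theorem gen_values_sigma {ω : ℝ → ℝ} (hω : Gauge ω) {E : Set ℝ}
    (hE : ∀ K : Set ℝ, IsCompact K → K ⊆ E → SigmaFiniteOn ω K)
    {G : Set ℂ} (hG : IsOpen G) {f : ℂ → ℝ} (hf : ContinuousOn f G)
    {G' : Set ℂ} (hG' : IsOpen G') (hdiff : ∀ z ∈ G \ G', DifferentiableAt ℝ f z)
    (hS : Subharmonic G' f)
    (hmem : ∀ z ∈ G \ G', fderiv ℝ f z ≠ 0 → f z ∈ E)
    (ho : ∀ K : Set ℂ, IsCompact K → K ⊆ {z ∈ G \ G' | fderiv ℝ f z ≠ 0} →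
      UnifTaylorLittleO G ω f K) :
    Subharmonic G f := by
  obtain ⟨F, hF1, hF2, hF3⟩ := exists_compact_cover_noncritical hG hG' hf hdiff
  apply general_pointwise hf hG' hdiff hS (S := F) (ω := fun _ => ω) (fun _ => hω)
  · intro z hz hne
    exact hF3 ⟨hz, hne⟩
  · intro n
    refine Or.inr ⟨ho _ (hF1 n) (hF2 n), ?_⟩
    apply hE
    · exact (hF1 n).image_of_continuousOn (hf.mono (fun z hz => (hF2 n hz).1.1))
    · rintro _ ⟨z, hz, rfl⟩
      exact hmem z (hF2 n hz).1 (hF2 n hz).2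

end Pool.Agent.Y257.KR
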